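import Pool.Agent.H93.KW.Defs

/-!
# KW Comb: half-covers give half-flat functions (MP_b63d87_nt, helper93)

`hcov_flat`.  `Z = {a | z a ≠ 0}` (so `o a = 0` on `Z`), `S' = (S \ b(Z)) ∪ Z`.  `Good (adjS Γ S) (aad Γ S) b Z`
(compare `GW.cov_good`): if `a ∉ Z`, `a' ∈ Z`, `adj a' (b a)` then `a ≠ a'`, `2 ≤ z a + o a' = 0`; if `a ∈ Z` is adjacent
to an unmatched `s` then `2 ≤ o a = 0`; if `a, a' ∈ Z` are adjacent then `2 ≤ o a + o a' = 0`.  So `S'` is independent
(`comb_indep`) with `|S|` elements (`comb_card`), hence a maximum independent set.  Put `x v = 2` for `v ∈ S'`;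
`x a = 2 - o a` for `a ∈ A \ Z` (`A` = outside `S`); `x (b a) = 2 - z a` for `a ∈ Z`.  (For example
`x v = if h : v ∉ S then 2 - o ⟨v, h⟩ else 2 - ∑ a, if (b a).1 = v then z a else 0`; on `Z` one has `o = 0`, on `S \ b(Z)`
the sum is `0`.)  Sum: `∑ x = 2 |V| - ∑ o - ∑ z` and `|V| = |S| + |AA S|`.  `one`: `v = a ∉ Z` with `o a ≤ 1`: the only
neighbour in `S'` is `b a`: a neighbour in `S \ b(Z)` is matched (`p2`), `b c` with `c ∉ Z`, and `c ≠ a` would give
`2 ≤ z c + o a = o a`; a neighbour `c ∈ Z` gives `2 ≤ o a + o c = o a`.  `v = b a`, `a ∈ Z`, `z a ≤ 1`: a neighbour in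
`S'` is not in `S`, so it is some `c ∈ Z`, and `c ≠ a` would give `2 ≤ z a + o c = z a`.  `edge`: `p3`, `p1`, and `S` is
independent.
-/

set_option autoImplicit false

namespace Pool.Agent.H93.KW

open Finset H93GS Pool.Agent.H25.GW

variable {r : ℕ} (Γ : SimpleGraph (Fin r)) [DecidableRel Γ.Adj] (S : Finset (Fin r))

theorem hcov_flat (hS : MaxIndep Γ S) (b : AA S → BB S) (hb : Function.Injective b)
    (hadj : ∀ a, adjS Γ S a (b a)) (z o : AA S → ℕ) (h : HCov (adjS Γ S) (aad Γ S) b z o) :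
    ∃ (S' : Finset (Fin r)) (x : Fin r → ℕ), HalfFlat Γ S' x ∧
      ∑ v, x v + (∑ a, z a + ∑ a, o a) = 2 * S.card + 2 * Fintype.card (AA S) := by
  classical
  obtain ⟨hz2, ho2, hzo, hp1, hp2, hp3⟩ := h
  set Z : Finset (AA S) := univ.filter fun a => z a ≠ 0 with hZ
  have hZm : ∀ a, a ∈ Z ↔ z a ≠ 0 := fun a => by simp [hZ]
  have hZo : ∀ a ∈ Z, o a = 0 := fun a ha => (hzo a).resolve_left ((hZm a).1 ha)
  have hZz : ∀ a, a ∉ Z → z a = 0 := fun a ha => by
    by_contra hne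
    exact ha ((hZm a).2 hne)
  -- the weights on `S`
  set q : Fin r → ℕ := fun v => ∑ a, if (b a).1 = v then z a else 0 with hq
  have hq1 : ∀ a, q (b a).1 = z a := by
    intro a
    simp only [hq]
    rw [sum_eq_single a]
    · rw [if_pos rfl]
    · intro c _ hca
      rw [if_neg]
      intro he
      exact hca (hb (Subtype.ext he))
    · intro ha
      exact absurd (mem_univ a) ha
  have hq0 : ∀ v, (∀ a, (b a).1 ≠ v) → q v = 0 := by
    intro v hv
    simp only [hq]
    exact sum_eq_zero fun a _ => if_neg (hv a)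
  set x : Fin r → ℕ := fun v => if h : v ∉ S then 2 - o ⟨v, h⟩ else 2 - q v with hx
  have hxA : ∀ a : AA S, x a.1 = 2 - o a := by
    intro a
    simp only [hx]
    rw [dif_pos a.2]
  have hxS : ∀ v ∈ S, x v = 2 - q v := by
    intro v hv
    simp only [hx]
    rw [dif_neg (not_not.2 hv)]
  have hxb : ∀ a : AA S, x (b a).1 = 2 - z a := by
    intro a
    rw [hxS _ (b a).2, hq1]
  have hx0 : ∀ v ∈ S, (∀ a, (b a).1 ≠ v) → x v = 2 := by
    intro v hv h1
    rw [hxS v hv, hq0 v h1]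
  have hgood : Good (adjS Γ S) (fun a a' => Γ.Adj a.1 a'.1) b Z := by
    refine ⟨fun a ha a' ha' hadj' => ?_, fun s hs a ha hadj' => ?_, fun a ha a' ha' hadj' => ?_⟩
    · have hne : a ≠ a' := fun e => ha (e ▸ ha')
      have h1 := hp1 a a' hne hadj'
      rw [hZz a ha, hZo a' ha'] at h1
      omega
    · have h1 := hp2 s hs a hadj'
      rw [hZo a ha] at h1
      omega
    · have h1 := hp3 a a' hadj'
      rw [hZo a ha, hZo a' ha'] at h1
      omega
  set S' : Finset (Fin r) := (S \ Z.image (fun a => (b a).1)) ∪ Z.image Subtype.val with hS'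
  have hi : ∀ i ∈ S', ∀ j ∈ S', ¬ Γ.Adj i j := comb_indep Γ S hS.1 b Z hgood
  have hc : S'.card = S.card := comb_card S b hb Z
  have hmem : ∀ u ∈ S', (u ∈ S ∧ ∀ a ∈ Z, (b a).1 ≠ u) ∨ ∃ a ∈ Z, a.1 = u := by
    intro u hu
    rw [hS', mem_union, mem_sdiff, mem_image, mem_image] at hu
    rcases hu with hu | hu
    · exact Or.inl ⟨hu.1, fun a ha he => hu.2 ⟨a, ha, he⟩⟩
    · exact Or.inr hu
  have hnot : ∀ v, v ∉ S' → (∃ a ∈ Z, (b a).1 = v) ∨ ∃ a, a ∉ Z ∧ a.1 = v := by
    intro v hv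
    rw [hS', mem_union, not_or, mem_sdiff, mem_image, mem_image] at hv
    by_cases hvS : v ∈ S
    · left
      by_contra hne
      exact hv.1 ⟨hvS, hne⟩
    · right
      exact ⟨⟨v, hvS⟩, fun ha => hv.2 ⟨⟨v, hvS⟩, ha, rfl⟩, rfl⟩
  -- the only neighbour
  have keyA : ∀ a, a ∉ Z → o a ≤ 1 → ∀ u ∈ S', Γ.Adj a.1 u → u = (b a).1 := by
    intro a _ hoa u hu hadj'
    rcases hmem u hu with ⟨huS, hub⟩ | ⟨c, hcZ, rfl⟩
    · by_cases hm : ∃ c, (b c).1 = u
      · obtain ⟨c, rfl⟩ := hm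
        have hcZ : c ∉ Z := fun hcZ => hub c hcZ rfl
        by_cases hne : c = a
        · rw [hne]
        · have h1 := hp1 c a hne hadj'
          rw [hZz c hcZ] at h1
          omega
      · push Not at hm
        have h1 := hp2 ⟨u, huS⟩ (fun c hc' => hm c (congrArg Subtype.val hc')) a hadj'
        omega
    · have h1 := hp3 a c hadj'
      rw [hZo c hcZ] at h1
      omega
  have keyB : ∀ a ∈ Z, z a ≤ 1 → ∀ u ∈ S', Γ.Adj (b a).1 u → u = a.1 := by
    intro a _ hza u hu hadj'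
    rcases hmem u hu with ⟨huS, hub⟩ | ⟨c, hcZ, rfl⟩
    · exact absurd hadj' (hS.1 _ (b a).2 _ huS)
    · by_cases hne : a = c
      · rw [hne]
      · have h1 := hp1 a c hne hadj'.symm
        rw [hZo c hcZ] at h1
        omega
  have hedge : ∀ a c : AA S, a ∉ Z → c ∈ Z → Γ.Adj a.1 (b c).1 → x a.1 + x (b c).1 ≤ 2 := by
    intro a c ha hcZ hadj'
    have hne : c ≠ a := fun e => ha (e ▸ hcZ)
    have h1 := hp1 c a hne hadj'
    rw [hxA, hxb]
    have h2 := ho2 a
    have h3 := hz2 c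
    omega
  refine ⟨S', x, ⟨⟨hi, fun T hT => ?_⟩, ?_, ?_, ?_, ?_⟩, ?_⟩
  · rw [hc]
    exact hS.2 T hT
  · intro v hv
    rcases hmem v hv with ⟨hvS, hvb⟩ | ⟨a, ha, rfl⟩
    · by_cases hm : ∃ c, (b c).1 = v
      · obtain ⟨c, rfl⟩ := hm
        rw [hxb, hZz c fun hcZ => hvb c hcZ rfl]
      · push Not at hm
        exact hx0 v hvS hm
    · rw [hxA, hZo a ha]
  · intro v
    simp only [hx]
    split_ifs
    · exact Nat.sub_le _ _
    · exact Nat.sub_le _ _
  · intro v hv hxv u hu u' hu' hvu hvu'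
    rcases hnot v hv with ⟨a, ha, rfl⟩ | ⟨a, ha, rfl⟩
    · rw [hxb] at hxv
      have h1 : z a ≤ 1 := by omega
      rw [keyB a ha h1 u hu hvu, keyB a ha h1 u' hu' hvu']
    · rw [hxA] at hxv
      have h1 : o a ≤ 1 := by omega
      rw [keyA a ha h1 u hu hvu, keyA a ha h1 u' hu' hvu']
  · intro v w hv hw hvw
    rcases hnot v hv with ⟨a, ha, rfl⟩ | ⟨a, ha, rfl⟩
    · rcases hnot w hw with ⟨c, hcZ, rfl⟩ | ⟨c, hcZ, rfl⟩
      · exact absurd hvw (hS.1 _ (b a).2 _ (b c).2)
      · have h1 := hedge c a hcZ ha hvw.symm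
        omega
    · rcases hnot w hw with ⟨c, hcZ, rfl⟩ | ⟨c, hcZ, rfl⟩
      · exact hedge a c ha hcZ hvw
      · have h1 := hp3 a c hvw
        rw [hxA, hxA]
        have h2 := ho2 a
        have h3 := ho2 c
        omega
  · rw [sum_split S x]
    have h1 : ∑ a : AA S, x a.1 + ∑ a, o a = 2 * Fintype.card (AA S) := by
      rw [← sum_add_distrib]
      have h2 : ∀ a : AA S, x a.1 + o a = 2 := by
        intro a
        rw [hxA]
        have := ho2 a
        omega
      rw [sum_congr rfl fun a _ => h2 a, sum_const, card_univ, smul_eq_mul, mul_comm]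
    have hqle : ∀ s : BB S, q s.1 ≤ 2 := by
      intro s
      by_cases hm : ∃ c, (b c).1 = s.1
      · obtain ⟨c, hc'⟩ := hm
        rw [← hc', hq1]
        exact hz2 c
      · push Not at hm
        rw [hq0 _ hm]
        exact Nat.zero_le _
    have h3 : ∑ s : BB S, x s.1 + ∑ s : BB S, q s.1 = 2 * S.card := by
      rw [← sum_add_distrib]
      have h2 : ∀ s : BB S, x s.1 + q s.1 = 2 := by
        intro s
        rw [hxS s.1 s.2]
        have := hqle s
        omega
      rw [sum_congr rfl fun s _ => h2 s, sum_const, card_univ, smul_eq_mul, mul_comm,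
        Fintype.card_coe]
    have h4 : ∑ s : BB S, q s.1 = ∑ a, z a := by
      simp only [hq]
      rw [sum_comm]
      refine sum_congr rfl fun a _ => ?_
      rw [sum_eq_single (b a)]
      · rw [if_pos rfl]
      · intro s _ hs
        rw [if_neg]
        intro he
        exact hs (Subtype.ext he.symm)
      · intro ha
        exact absurd (mem_univ _) ha
    omega

end Pool.Agent.H93.KW
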