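import Pool.Agent.H25.GW.Final

/-!
# KW Defs: half-integral covers, half-flat functions (MP_b63d87_nt, helper93)
-/

set_option autoImplicit false

namespace Pool.Agent.H93.KW

open Finset H93GS Pool.Agent.H25.GW

/-- half-integral covers -/
structure HCov {A B : Type} (adj : A → B → Prop) (aadj : A → A → Prop) (b : A → B)
    (z o : A → ℕ) : Prop where
  z2 : ∀ a, z a ≤ 2
  o2 : ∀ a, o a ≤ 2
  zo : ∀ a, z a = 0 ∨ o a = 0
  p1 : ∀ a a', a ≠ a' → adj a' (b a) → 2 ≤ z a + o a'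
  p2 : ∀ s, (∀ a, b a ≠ s) → ∀ a, adj a s → 2 ≤ o a
  p3 : ∀ a a', aadj a a' → 2 ≤ o a + o a'

/-- `x` is half-flat at the maximum independent set `S`: it has values in `{0, 1, 2}`, is `2` on `S`,
a vertex `v` outside `S` with `x v ≠ 0` has at most one neighbour in `S`, and `x v + x w ≤ 2` for
adjacent `v`, `w` outside `S` -/
structure HalfFlat {r : ℕ} (Γ : SimpleGraph (Fin r)) (S : Finset (Fin r)) (x : Fin r → ℕ) :
    Prop where
  max : MaxIndep Γ S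
  two : ∀ v ∈ S, x v = 2
  le : ∀ v, x v ≤ 2
  one : ∀ v, v ∉ S → x v ≠ 0 → ∀ u ∈ S, ∀ u' ∈ S, Γ.Adj v u → Γ.Adj v u' → u = u'
  edge : ∀ v w, v ∉ S → w ∉ S → Γ.Adj v w → x v + x w ≤ 2

/-- Koenig-Egervary graphs -/
def KE {r : ℕ} (Γ : SimpleGraph (Fin r)) : Prop :=
  ∃ (S : Finset (Fin r)) (b : Fin r → Fin r),
      (∀ i ∈ S, ∀ j ∈ S, ¬ Γ.Adj i j) ∧
      (∀ a, a ∉ S → b a ∈ S ∧ Γ.Adj a (b a)) ∧
      ∀ a a', a ∉ S → a' ∉ S → b a = b a' → a = a'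

end Pool.Agent.H93.KW
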