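import Pool.Agent.H93.KW.Defs

/-!
# KW LowP: lower bound for the reduced series, half-integral version (MP_b63d87_nt, helper93)

Compare `H25/GW/Lower` (`gt_supp` is used with `F = univ.filter fun a => x a ≠ 0`).  One box: `n a < 2 ^ (J * x a)`,
with the largest `J` such that `4 ^ J * (1 - q) ≤ 1 / 2` (so `1 / 2 < 4 ^ (J + 1) * (1 - q)`,
`(2 ^ J) ^ (∑ x) = (4 ^ J) ^ ((∑ x) / 2)`).  The box has `2 ^ (J * ∑ x)` points; `n a = 0` if `x a = 0`; for adjacent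
`a, a'`: `n a * n a' ≤ 2 ^ (J * (x a + x a')) ≤ 4 ^ J`; `∑ n ≤ m * 4 ^ J`; `q ^ (4 ^ J) ≥ 1 / 2` (Bernoulli, as in
`GW.lower_two`); so every term is at least `(1 / 2) ^ (m ^ 2 + m)`.
-/

set_option autoImplicit false

namespace Pool.Agent.H93.KW

open Finset H93GS Pool.Agent.H25.GW

section

variable {A B : Type} [Fintype A] [Fintype B]
  (adj : A → B → Prop) [∀ a s, Decidable (adj a s)] (E : (A → ℕ) → ℕ) (b : A → B)

theorem lower_pow (hb : Function.Injective b) (hadj : ∀ a, adj a (b a)) (aadj : A → A → Prop)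
    (hE : ∀ n D, (∀ a a', aadj a a' → n a * n a' ≤ D) → E n ≤ Fintype.card A ^ 2 * D)
    (x : A → ℕ) (hx2 : ∀ a, x a ≤ 2) (hx : ∀ a, x a ≠ 0 → ∀ s, adj a s → s = b a)
    (hxe : ∀ a a', aadj a a' → x a + x a' ≤ 2) :
    ∃ c : ℝ, 0 < c ∧ ∀ q : ℝ, 1 / 2 ≤ q → q < 1 →
      c * (1 - q) ^ (-(((∑ a, x a : ℕ) : ℝ) / 2)) ≤ ∑' n : A → ℕ, gt adj E q n := by
  classical
  set m : ℕ := Fintype.card A with hm
  set X : ℕ := ∑ a, x a with hX
  refine ⟨(1 / 2) ^ (m ^ 2 + m) * (8 : ℝ) ^ (-((X : ℝ) / 2)), by positivity, fun q hq h1 => ?_⟩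
  have h0 : 0 < q := by linarith
  have ht : 0 < 1 - q := by linarith
  -- the largest `J`
  obtain ⟨J, hJ1, hJ2⟩ : ∃ J : ℕ, (4 : ℝ) ^ J ≤ 1 / (2 * (1 - q)) ∧ 1 / (2 * (1 - q)) < 4 ^ (J + 1) := by
    refine exists_nat_pow_near ?_ (by norm_num)
    rw [le_div_iff₀ (by linarith)]
    linarith
  have hJ : (4 : ℝ) ^ J * (1 - q) ≤ 1 / 2 := by
    rw [le_div_iff₀ (by linarith)] at hJ1
    linarith
  have hJ' : (8 * (1 - q))⁻¹ ≤ (4 : ℝ) ^ J := by
    rw [div_lt_iff₀ (by linarith), pow_succ] at hJ2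
    rw [inv_le_iff_one_le_mul₀ (by linarith)]
    linarith
  have hqJ : (1 / 2 : ℝ) ≤ q ^ 4 ^ J := by
    have h2 : 1 + ((4 ^ J : ℕ) : ℝ) * (q - 1) ≤ (1 + (q - 1)) ^ 4 ^ J :=
      one_add_mul_le_pow (by linarith) _
    have h3 : 1 + (q - 1) = q := by ring
    rw [h3] at h2
    push_cast at h2
    nlinarith
  have hterm : ∀ n ∈ Fintype.piFinset fun a => range (2 ^ (J * x a)),
      (1 / 2 : ℝ) ^ (m ^ 2 + m) ≤ gt adj E q n := by
    intro n hn
    rw [Fintype.mem_piFinset] at hn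
    have hn1 : ∀ a, n a < 2 ^ (J * x a) := fun a => mem_range.1 (hn a)
    have hn0 : ∀ a, a ∉ univ.filter (fun a => x a ≠ 0) → n a = 0 := by
      intro a ha
      have h2 : x a = 0 := by
        by_contra h3
        exact ha (mem_filter.2 ⟨mem_univ a, h3⟩)
      have h3 := hn1 a
      rw [h2, mul_zero, pow_zero] at h3
      omega
    have h4 : (4 : ℕ) ^ J = 2 ^ (2 * J) := by rw [pow_mul]; norm_num
    have hnJ : ∀ a, n a ≤ 4 ^ J := by
      intro a
      rw [h4]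
      refine (hn1 a).le.trans (Nat.pow_le_pow_right (by norm_num) ?_)
      rw [mul_comm 2 J]
      exact Nat.mul_le_mul_left J (hx2 a)
    have hED : E n ≤ m ^ 2 * 4 ^ J := by
      refine hE n _ fun a a' h => ?_
      calc n a * n a' ≤ 2 ^ (J * x a) * 2 ^ (J * x a') := Nat.mul_le_mul (hn1 a).le (hn1 a').le
        _ = 2 ^ (J * (x a + x a')) := by rw [← pow_add, mul_add]
        _ ≤ 2 ^ (J * 2) := Nat.pow_le_pow_right (by norm_num) (Nat.mul_le_mul_left J (hxe a a' h))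
        _ = 4 ^ J := by rw [h4, mul_comm]
    have hsum : ∑ a, n a ≤ m * 4 ^ J := by
      have := Finset.sum_le_card_nsmul (univ : Finset A) n _ fun a _ => hnJ a
      rwa [smul_eq_mul, card_univ] at this
    rw [gt_supp adj E b hb hadj (univ.filter fun a => x a ≠ 0)
      (fun a ha s hs' => hx a (mem_filter.1 ha).2 s hs') n hn0 h0 h1]
    have hexp : E n + ∑ a, n a ≤ 4 ^ J * (m ^ 2 + m) := by
      calc E n + ∑ a, n a ≤ m ^ 2 * 4 ^ J + m * 4 ^ J := add_le_add hED hsum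
        _ = _ := by ring
    calc (1 / 2 : ℝ) ^ (m ^ 2 + m) ≤ (q ^ 4 ^ J) ^ (m ^ 2 + m) :=
          pow_le_pow_left₀ (by norm_num) hqJ _
      _ = q ^ (4 ^ J * (m ^ 2 + m)) := (pow_mul _ _ _).symm
      _ ≤ _ := pow_le_pow_of_le_one h0.le h1.le hexp
  have hs := (gt_real_summable adj E b hb hadj h0 h1).sum_le_tsum
    (Fintype.piFinset fun a => range (2 ^ (J * x a))) fun n _ => (gt_pos adj E h0 h1 n).le
  refine le_trans ?_ hs
  refine le_trans ?_ (Finset.card_nsmul_le_sum _ _ _ hterm)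
  have hcard : (Fintype.piFinset fun a => range (2 ^ (J * x a))).card = 2 ^ (J * X) := by
    rw [Fintype.card_piFinset, Finset.prod_congr rfl fun a _ => card_range _,
      Finset.prod_pow_eq_pow_sum, ← Finset.mul_sum]
  rw [hcard, nsmul_eq_mul, mul_assoc, mul_comm ((1 / 2 : ℝ) ^ (m ^ 2 + m))]
  refine mul_le_mul_of_nonneg_right ?_ (by positivity)
  -- the powers
  have e1 : (8 : ℝ) ^ (-((X : ℝ) / 2)) * (1 - q) ^ (-((X : ℝ) / 2)) =
      ((8 * (1 - q))⁻¹) ^ ((X : ℝ) / 2) := by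
    rw [← Real.mul_rpow (by norm_num) ht.le, Real.rpow_neg (by positivity), Real.inv_rpow (by positivity)]
  have e2 : (((2 ^ (J * X) : ℕ)) : ℝ) = ((4 : ℝ) ^ J) ^ ((X : ℝ) / 2) := by
    have h4 : (4 : ℝ) ^ J = ((2 : ℝ) ^ J) ^ (2 : ℝ) := by
      rw [Real.rpow_two, ← pow_mul, mul_comm J 2, pow_mul]
      norm_num
    rw [h4, ← Real.rpow_mul (by positivity)]
    have h5 : (2 : ℝ) * ((X : ℝ) / 2) = (X : ℝ) := by ring
    rw [h5, Real.rpow_natCast, ← pow_mul]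
    push_cast
    rfl
  rw [e1, e2]
  exact Real.rpow_le_rpow (by positivity) hJ' (by positivity)

end

end Pool.Agent.H93.KW
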