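import Pool.Agent.H93.KW.Defs

/-!
# KW Lower: lower bounds for the reduced series, half-integral version (MP_b63d87_nt, helper93)

Compare `H25/GW/Lower` (`gt_supp` is used with `F = univ.filter fun a => x a ≠ 0 ∨ y a ≠ 0`).  `lower_pair`: boxes
`j < J`: `n a < 2 ^ e a` with `e a = (J - j) * x a + j * y a`, except for one coordinate `a₀` with `y a₀ < x a₀` (it
exists since the sums are equal and `x ≠ y`), where `2 ^ e a₀ ≤ n a₀ < 2 ^ (e a₀ + 1)`.  The boxes are disjoint (`e a₀`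
is strictly decreasing in `j`), box `j` has `2 ^ (J * ∑ x)` points, `n a = 0` if `x a = y a = 0`; for adjacent `a, a'`:
`n a * n a' ≤ 4 * 2 ^ (e a + e a') ≤ 4 * 4 ^ J`; `∑ n ≤ m * (2 * 4 ^ J)`; `q ^ (4 ^ J) ≥ 1 / 2`; so every term is at least
`(1 / 2) ^ (4 * m ^ 2 + 2 * m)`.
-/

set_option autoImplicit false

namespace Pool.Agent.H93.KW

open Finset H93GS Pool.Agent.H25.GW

section

variable {A B : Type} [Fintype A] [Fintype B]
  (adj : A → B → Prop) [∀ a s, Decidable (adj a s)] (E : (A → ℕ) → ℕ) (b : A → B)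

/-- the exponent of the coordinate `a` in the box number `j` -/
private def Lower_e (x y : A → ℕ) (J j : ℕ) (a : A) : ℕ := (J - j) * x a + j * y a

/-- the range of the coordinate `a` in the box number `j` -/
private def Lower_rng [DecidableEq A] (x y : A → ℕ) (a₀ : A) (J j : ℕ) (a : A) : Finset ℕ :=
  if a = a₀ then Ico (2 ^ Lower_e x y J j a) (2 ^ (Lower_e x y J j a + 1))
  else range (2 ^ Lower_e x y J j a)

omit [Fintype A] in
private theorem Lower_card_rng [DecidableEq A] (x y : A → ℕ) (a₀ : A) (J j : ℕ) (a : A) :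
    (Lower_rng x y a₀ J j a).card = 2 ^ Lower_e x y J j a := by
  unfold Lower_rng
  split_ifs
  · rw [Nat.card_Ico, pow_succ]
    omega
  · rw [card_range]

private theorem Lower_card_box [DecidableEq A] (x y : A → ℕ) (a₀ : A)
    (hsum : ∑ a, x a = ∑ a, y a) {J j : ℕ} (hj : j < J) :
    (Fintype.piFinset (Lower_rng x y a₀ J j)).card = (2 ^ J) ^ (∑ a, x a) := by
  rw [Fintype.card_piFinset, Finset.prod_congr rfl fun a _ => Lower_card_rng x y a₀ J j a,
    Finset.prod_pow_eq_pow_sum, ← pow_mul]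
  congr 1
  unfold Lower_e
  rw [Finset.sum_add_distrib, ← Finset.mul_sum, ← Finset.mul_sum, ← hsum, ← add_mul]
  congr 1
  omega

omit [Fintype A] in
private theorem Lower_e_lt (x y : A → ℕ) {a₀ : A} (ha : y a₀ < x a₀) {J j j' : ℕ} (hjj : j < j')
    (hj : j' ≤ J) : Lower_e x y J j' a₀ + 1 ≤ Lower_e x y J j a₀ := by
  unfold Lower_e
  obtain ⟨l, rfl⟩ := Nat.exists_eq_add_of_lt hjj
  obtain ⟨k, rfl⟩ := Nat.exists_eq_add_of_le hj
  have h1 : j + l + 1 + k - (j + l + 1) = k := by omega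
  have h2 : j + l + 1 + k - j = k + (l + 1) := by omega
  rw [h1, h2]
  have h3 : (l + 1) * y a₀ < (l + 1) * x a₀ := Nat.mul_lt_mul_of_pos_left ha (Nat.succ_pos l)
  have h4 : (k + (l + 1)) * x a₀ = k * x a₀ + (l + 1) * x a₀ := by ring
  have h5 : (j + l + 1) * y a₀ = j * y a₀ + (l + 1) * y a₀ := by ring
  rw [h4, h5]
  omega

theorem lower_pair (hb : Function.Injective b) (hadj : ∀ a, adj a (b a)) (aadj : A → A → Prop)
    (hE : ∀ n D, (∀ a a', aadj a a' → n a * n a' ≤ D) → E n ≤ Fintype.card A ^ 2 * D)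
    (x y : A → ℕ) (hx2 : ∀ a, x a ≤ 2) (hy2 : ∀ a, y a ≤ 2)
    (hx : ∀ a, x a ≠ 0 → ∀ s, adj a s → s = b a) (hy : ∀ a, y a ≠ 0 → ∀ s, adj a s → s = b a)
    (hxe : ∀ a a', aadj a a' → x a + x a' ≤ 2) (hye : ∀ a a', aadj a a' → y a + y a' ≤ 2)
    (hne : x ≠ y) (hsum : ∑ a, x a = ∑ a, y a) :
    ∃ c : ℝ, 0 < c ∧ ∀ J : ℕ, ∀ q : ℝ, 0 < q → q < 1 → 4 ^ J * (1 - q) ≤ 1 / 2 →
      c * J * (2 ^ J) ^ (∑ a, x a) ≤ ∑' n : A → ℕ, gt adj E q n := by
  classical
  set m : ℕ := Fintype.card A with hm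
  refine ⟨(1 / 2) ^ (4 * m ^ 2 + 2 * m), by positivity, fun J q h0 h1 hJ => ?_⟩
  obtain ⟨a₀, ha₀⟩ : ∃ a, y a < x a := by
    by_contra hcon
    push Not at hcon
    refine hne (funext fun a => ?_)
    exact (Finset.sum_eq_sum_iff_of_le fun a _ => hcon a).1 hsum a (mem_univ a)
  have hdisj : (↑(range J) : Set ℕ).PairwiseDisjoint
      fun j => Fintype.piFinset (Lower_rng x y a₀ J j) := by
    intro j hjm j' hjm' hjj
    rw [Finset.coe_range, Set.mem_Iio] at hjm hjm'
    rw [Function.onFun, Finset.disjoint_left]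
    intro n hn hn'
    rw [Fintype.mem_piFinset] at hn hn'
    have h2 := hn a₀
    have h3 := hn' a₀
    simp only [Lower_rng, if_true, mem_Ico] at h2 h3
    rcases lt_or_gt_of_ne hjj with h | h
    · have h4 := Nat.pow_le_pow_right (n := 2) (by norm_num) (Lower_e_lt x y ha₀ h hjm'.le)
      omega
    · have h4 := Nat.pow_le_pow_right (n := 2) (by norm_num) (Lower_e_lt x y ha₀ h hjm.le)
      omega
  have hs := (gt_real_summable adj E b hb hadj h0 h1).sum_le_tsum
    ((range J).biUnion fun j => Fintype.piFinset (Lower_rng x y a₀ J j)) fun n _ =>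
      (gt_pos adj E h0 h1 n).le
  refine le_trans ?_ hs
  rw [Finset.sum_biUnion hdisj]
  -- each term
  have hqJ : (1 / 2 : ℝ) ≤ q ^ 4 ^ J := by
    have h2 : 1 + ((4 ^ J : ℕ) : ℝ) * (q - 1) ≤ (1 + (q - 1)) ^ 4 ^ J :=
      one_add_mul_le_pow (by linarith) _
    have h3 : 1 + (q - 1) = q := by ring
    rw [h3] at h2
    push_cast at h2
    nlinarith
  have hterm : ∀ j ∈ range J, ∀ n ∈ Fintype.piFinset (Lower_rng x y a₀ J j),
      (1 / 2 : ℝ) ^ (4 * m ^ 2 + 2 * m) ≤ gt adj E q n := by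
    intro j hj n hn
    rw [mem_range] at hj
    rw [Fintype.mem_piFinset] at hn
    have hnlt : ∀ a, n a < 2 ^ (Lower_e x y J j a + 1) := by
      intro a
      have h2 := hn a
      unfold Lower_rng at h2
      split_ifs at h2
      · rw [mem_Ico] at h2
        exact h2.2
      · rw [mem_range] at h2
        exact h2.trans_le (Nat.pow_le_pow_right (by norm_num) (Nat.le_succ _))
    have hn0 : ∀ a, a ∉ univ.filter (fun a => x a ≠ 0 ∨ y a ≠ 0) → n a = 0 := by
      intro a ha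
      rw [mem_filter, not_and, not_or] at ha
      obtain ⟨h2, h3⟩ := ha (mem_univ a)
      rw [not_not] at h2 h3
      have h4 : a ≠ a₀ := by
        rintro rfl
        omega
      have h5 := hn a
      simp only [Lower_rng, if_neg h4, Lower_e, h2, h3, mul_zero, add_zero, pow_zero,
        mem_range] at h5
      omega
    have hsupp : ∀ a ∈ univ.filter (fun a => x a ≠ 0 ∨ y a ≠ 0), ∀ s, adj a s → s = b a := by
      intro a ha s hs'
      rw [mem_filter] at ha
      rcases ha.2 with h | h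
      · exact hx a h s hs'
      · exact hy a h s hs'
    have he2 : ∀ a, Lower_e x y J j a ≤ 2 * J := by
      intro a
      unfold Lower_e
      have h2 : (J - j) * x a ≤ (J - j) * 2 := Nat.mul_le_mul_left _ (hx2 a)
      have h3 : j * y a ≤ j * 2 := Nat.mul_le_mul_left _ (hy2 a)
      omega
    have hpw : ∀ k : ℕ, k ≤ 2 * J → 2 ^ k ≤ 4 ^ J := by
      intro k hk
      have h2 : (4 : ℕ) ^ J = 2 ^ (2 * J) := by
        rw [pow_mul]
        norm_num
      rw [h2]
      exact Nat.pow_le_pow_right (by norm_num) hk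
    have hED : E n ≤ m ^ 2 * (4 * 4 ^ J) := by
      refine hE n _ fun a a' h => ?_
      have h2 : Lower_e x y J j a + Lower_e x y J j a' ≤ 2 * J := by
        unfold Lower_e
        have h3 : (J - j) * (x a + x a') ≤ (J - j) * 2 := Nat.mul_le_mul_left _ (hxe a a' h)
        have h4 : j * (y a + y a') ≤ j * 2 := Nat.mul_le_mul_left _ (hye a a' h)
        rw [mul_add] at h3 h4
        omega
      calc n a * n a' ≤ 2 ^ (Lower_e x y J j a + 1) * 2 ^ (Lower_e x y J j a' + 1) :=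
            Nat.mul_le_mul (hnlt a).le (hnlt a').le
        _ = 4 * 2 ^ (Lower_e x y J j a + Lower_e x y J j a') := by
            rw [pow_succ, pow_succ, pow_add]
            ring
        _ ≤ 4 * 4 ^ J := Nat.mul_le_mul_left _ (hpw _ h2)
    have hsumn : ∑ a, n a ≤ m * (2 * 4 ^ J) := by
      have h2 := Finset.sum_le_card_nsmul (univ : Finset A) n (2 * 4 ^ J) fun a _ => by
        have h3 := hnlt a
        have h4 := hpw _ (he2 a)
        rw [pow_succ] at h3
        omega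
      rwa [smul_eq_mul, card_univ] at h2
    rw [gt_supp adj E b hb hadj _ hsupp n hn0 h0 h1]
    have hexp : E n + ∑ a, n a ≤ 4 ^ J * (4 * m ^ 2 + 2 * m) := by
      calc E n + ∑ a, n a ≤ m ^ 2 * (4 * 4 ^ J) + m * (2 * 4 ^ J) := add_le_add hED hsumn
        _ = _ := by ring
    calc (1 / 2 : ℝ) ^ (4 * m ^ 2 + 2 * m) ≤ (q ^ 4 ^ J) ^ (4 * m ^ 2 + 2 * m) :=
          pow_le_pow_left₀ (by norm_num) hqJ _
      _ = q ^ (4 ^ J * (4 * m ^ 2 + 2 * m)) := (pow_mul _ _ _).symm
      _ ≤ _ := pow_le_pow_of_le_one h0.le h1.le hexp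
  calc (1 / 2 : ℝ) ^ (4 * m ^ 2 + 2 * m) * J * (2 ^ J) ^ (∑ a, x a)
      = ∑ _j ∈ range J,
          (((2 ^ J) ^ (∑ a, x a) : ℕ) : ℝ) * (1 / 2) ^ (4 * m ^ 2 + 2 * m) := by
        rw [sum_const, card_range, nsmul_eq_mul]
        push_cast
        ring
    _ ≤ _ := by
        refine Finset.sum_le_sum fun j hj => ?_
        rw [← Lower_card_box x y a₀ hsum (mem_range.1 hj), ← nsmul_eq_mul]
        exact Finset.card_nsmul_le_sum _ _ _ (hterm j hj)

end

end Pool.Agent.H93.KW
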