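import Pool.Agent.H93.KW.Defs

/-!
# KW Mat: every maximum independent set of a Koenig-Egervary graph has a matching (MP_b63d87_nt, helper93)

Let `S₀`, `b₀` be as in `KE`.  The sets `S ∩ S₀` and `b₀ (S \ S₀)` are disjoint subsets of `S₀` (`b₀ a` is adjacent to
`a ∈ S`, and `S` is independent), the second one has `|S \ S₀|` elements, so together they have `|S|` elements, and
`|S₀| ≤ |S|` because `S` is maximum: so they cover `S₀`.  For `v ∉ S`: if `v ∈ S₀` then `v = b₀ a` with a unique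
`a ∈ S \ S₀`: `b v = a`; if `v ∉ S₀` then `b v = b₀ v`, which is in `S₀` and not in `b₀ (S \ S₀)` (injectivity), so in
`S ∩ S₀`.  Injective: the values of the first kind are outside `S₀`, those of the second kind in `S₀`.
-/

set_option autoImplicit false

namespace Pool.Agent.H93.KW

open Finset H93GS Pool.Agent.H25.GW

variable {r : ℕ} (Γ : SimpleGraph (Fin r)) [DecidableRel Γ.Adj] (S : Finset (Fin r))

theorem max_match (hΓ : KE Γ) (hS : MaxIndep Γ S) :
    ∃ b : AA S → BB S, Function.Injective b ∧ ∀ a, adjS Γ S a (b a) := by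
  obtain ⟨S₀, b₀, hind, hb, hinj⟩ := hΓ
  have hcard : ((S \ S₀).image b₀).card = (S \ S₀).card :=
    card_image_of_injOn fun a ha a' ha' h =>
      hinj a a' (mem_sdiff.1 ha).2 (mem_sdiff.1 ha').2 h
  have hdis : Disjoint (S ∩ S₀) ((S \ S₀).image b₀) := by
    rw [disjoint_left]
    intro x hx hx'
    obtain ⟨a, ha, rfl⟩ := mem_image.1 hx'
    exact hS.1 a (mem_sdiff.1 ha).1 _ (mem_inter.1 hx).1 (hb a (mem_sdiff.1 ha).2).2
  have hsub : (S ∩ S₀) ∪ (S \ S₀).image b₀ ⊆ S₀ := by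
    refine union_subset inter_subset_right fun x hx => ?_
    obtain ⟨a, ha, rfl⟩ := mem_image.1 hx
    exact (hb a (mem_sdiff.1 ha).2).1
  have hle : S₀.card ≤ ((S ∩ S₀) ∪ (S \ S₀).image b₀).card := by
    rw [card_union_of_disjoint hdis, hcard, card_inter_add_card_sdiff]
    exact hS.2 S₀ hind
  have heq : (S ∩ S₀) ∪ (S \ S₀).image b₀ = S₀ := eq_of_subset_of_card_le hsub hle
  have key : ∀ v : AA S, ∃ w : BB S, adjS Γ S v w ∧
      ((w.1 ∉ S₀ ∧ b₀ w.1 = v.1) ∨ (v.1 ∉ S₀ ∧ w.1 ∈ S₀ ∧ w.1 = b₀ v.1)) := by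
    intro v
    by_cases hv : v.1 ∈ S₀
    · have h1 : v.1 ∈ (S ∩ S₀) ∪ (S \ S₀).image b₀ := by rw [heq]; exact hv
      rcases mem_union.1 h1 with h2 | h2
      · exact absurd (mem_inter.1 h2).1 v.2
      · obtain ⟨a, ha, hav⟩ := mem_image.1 h2
        have ha' := mem_sdiff.1 ha
        refine ⟨⟨a, ha'.1⟩, ?_, Or.inl ⟨ha'.2, hav⟩⟩
        show Γ.Adj v.1 a
        rw [← hav]
        exact (hb a ha'.2).2.symm
    · have h0 := hb v.1 hv
      have h1 : b₀ v.1 ∈ (S ∩ S₀) ∪ (S \ S₀).image b₀ := by rw [heq]; exact h0.1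
      rcases mem_union.1 h1 with h2 | h2
      · exact ⟨⟨b₀ v.1, (mem_inter.1 h2).1⟩, h0.2, Or.inr ⟨hv, h0.1, rfl⟩⟩
      · obtain ⟨a, ha, hav⟩ := mem_image.1 h2
        have ha' := mem_sdiff.1 ha
        have h3 : a = v.1 := hinj a v.1 ha'.2 hv hav
        exact absurd (h3 ▸ ha'.1) v.2
  choose b hb' using key
  refine ⟨b, fun v v' h => ?_, fun a => (hb' a).1⟩
  rcases (hb' v).2 with ⟨h1, h2⟩ | ⟨h1, h2, h3⟩
  · rcases (hb' v').2 with ⟨h4, h5⟩ | ⟨_, h5, _⟩
    · exact Subtype.ext (by rw [← h2, ← h5, h])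
    · rw [h] at h1
      exact absurd h5 h1
  · rcases (hb' v').2 with ⟨h4, _⟩ | ⟨h4, h5, h6⟩
    · rw [h] at h2
      exact absurd h2 h4
    · refine Subtype.ext (hinj v.1 v'.1 h1 h4 ?_)
      rw [← h3, ← h6, h]

end Pool.Agent.H93.KW
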