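import Pool.Agent.H93.KW.Upper
import Pool.Agent.H93.KW.Lower
import Pool.Agent.H93.KW.LowP
import Pool.Agent.H93.KW.Comb
import Pool.Agent.H93.KW.Mat

/-!
# KW Main: the weight of a modular graph series, Koenig-Egervary graphs (MP_b63d87_nt, helper93)
-/

set_option autoImplicit false

namespace Pool.Agent.H93.KW

open Finset UpperHalfPlane Filter Topology H93GS Pool.Agent.H25.GW
open scoped MatrixGroups Manifold

theorem log_contra {G : ℝ → ℝ} {c C : ℝ} (hc : 0 < c) {W : ℕ}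
    (h1 : ∀ J : ℕ, ∀ q : ℝ, 0 < q → q < 1 → 4 ^ J * (1 - q) ≤ 1 / 2 → c * J * (2 ^ J) ^ W ≤ G q)
    (h2 : ∀ᶠ x : ℝ in atTop, G (1 - x⁻¹) ≤ C * x ^ ((W : ℝ) / 2)) : False := by
  have h3 : Tendsto (fun J : ℕ => 2 * (4 : ℝ) ^ J) atTop atTop :=
    (tendsto_pow_atTop_atTop_of_one_lt (by norm_num)).const_mul_atTop (by norm_num)
  have h4 := h3.eventually h2
  set D : ℝ := C * 2 ^ ((W : ℝ) / 2) with hD
  obtain ⟨J₀, hJ₀⟩ := exists_nat_gt (D / c)
  obtain ⟨J, h5, h6, h7⟩ := (h4.and ((eventually_ge_atTop J₀).and (eventually_ge_atTop 1))).exists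
  have h8 : (1 : ℝ) ≤ 4 ^ J := one_le_pow₀ (by norm_num)
  have hx : (2 : ℝ) ≤ 2 * 4 ^ J := by linarith
  have hx' : (2 * (4 : ℝ) ^ J)⁻¹ ≤ 2⁻¹ := inv_anti₀ (by norm_num) hx
  have hx0 : 0 < (2 * (4 : ℝ) ^ J)⁻¹ := by positivity
  have h9 := h1 J (1 - (2 * (4 : ℝ) ^ J)⁻¹) (by norm_num at hx' ⊢; linarith) (by linarith) (by
    have : (4 : ℝ) ^ J * (1 - (1 - (2 * (4 : ℝ) ^ J)⁻¹)) = 1 / 2 := by
      field_simp
      ring
    exact this.le)
  have h10 := h9.trans h5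
  have h11 : C * (2 * (4 : ℝ) ^ J) ^ ((W : ℝ) / 2) = D * (2 ^ J) ^ W := by
    rw [Real.mul_rpow (by norm_num) (by positivity), hD, mul_assoc]
    congr 2
    rw [show (4 : ℝ) ^ J = (2 ^ J) ^ (2 : ℝ) by
      rw [show (4 : ℝ) = 2 ^ 2 by norm_num, ← pow_mul, mul_comm, pow_mul]
      norm_cast]
    rw [← Real.rpow_mul (by positivity), mul_div_cancel₀ _ (two_ne_zero), Real.rpow_natCast]
  rw [h11] at h10
  have h12 : 0 < ((2 : ℝ) ^ J) ^ W := by positivity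
  have h13 := le_of_mul_le_mul_right h10 h12
  rw [div_lt_iff₀ hc] at hJ₀
  have h14 : (J₀ : ℝ) ≤ J := by exact_mod_cast h6
  nlinarith

section

variable {r : ℕ} (Γ : SimpleGraph (Fin r)) [DecidableRel Γ.Adj] (S : Finset (Fin r))

theorem sum_split {x : Fin r → ℕ} (hx : HalfFlat Γ S x) :
    ∑ v, x v = 2 * S.card + ∑ a : AA S, x a.1 := by
  classical
  have h1 : ∑ v ∈ S, x v = 2 * S.card := by
    rw [Finset.sum_congr rfl hx.two, sum_const, smul_eq_mul, mul_comm]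
  have h2 : ∑ v ∈ Sᶜ, x v = ∑ a : AA S, x a.1 := by
    refine Finset.sum_subtype Sᶜ (fun v => ?_) x
    rw [mem_compl]
  rw [← h1, ← h2, Finset.sum_add_sum_compl]

theorem only {x : Fin r → ℕ} (hx : HalfFlat Γ S x) (b : AA S → BB S)
    (hadj : ∀ a, adjS Γ S a (b a)) (a : AA S) (ha : x a.1 ≠ 0) (s : BB S) (hs : adjS Γ S a s) :
    s = b a :=
  Subtype.ext (hx.one a.1 a.2 ha s.1 s.2 (b a).1 (b a).2 hs (hadj a))

theorem main_aux (b : AA S → BB S) (hb : Function.Injective b)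
    (hadj : ∀ a, adjS Γ S a (b a)) (W : ℕ)
    (hW : ∀ (S' : Finset (Fin r)) (x : Fin r → ℕ), HalfFlat Γ S' x →
      ∑ v, x v ≤ 2 * S.card + W)
    {x : Fin r → ℕ} (hx : HalfFlat Γ S x) (hxc : ∑ v, x v = 2 * S.card + W) (a k : ℝ)
    (hf : IsModularForm k fun τ : ℍ => Complex.exp (2 * Real.pi * Complex.I * a * (τ : ℂ)) *
      graphSeries Γ (Complex.exp (2 * Real.pi * Complex.I * (τ : ℂ)))) :
    k + S.card / 2 = W / 2 ∧
      ∃ C : ℝ, ∀ᶠ x : ℝ in atTop, gR Γ S (1 - x⁻¹) ≤ C * x ^ ((W : ℝ) / 2) := by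
  have hS := hx.max.1
  set w : ℝ := (W : ℝ) / 2 with hwdef
  have hw0 : 0 ≤ w := by positivity
  obtain ⟨hd, ⟨Δ, v, hΔ, hv, htr⟩, hgr⟩ := hf
  set f : ℍ → ℂ := fun τ : ℍ => Complex.exp (2 * Real.pi * Complex.I * a * (τ : ℂ)) *
      graphSeries Γ (Complex.exp (2 * Real.pi * Complex.I * (τ : ℂ))) with hfdef
  set F : ℍ → ℂ := fun τ => f τ * ModularForm.eta (τ : ℂ) ^ S.card with hF
  set a' : ℝ := a + S.card / 24 with ha'
  -- the formula for `F`
  have hFG : ∀ τ : ℍ, ‖F τ‖ = Real.exp (-(2 * Real.pi * a' * τ.im)) * ‖GG Γ S (qe τ)‖ := by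
    intro τ
    have h3 : F τ = Complex.exp (2 * Real.pi * Complex.I * a' * (τ : ℂ)) * GG Γ S (qe τ) := by
      have h4 : graphSeries Γ (qe τ) * qinf (qe τ) ^ S.card = GG Γ S (qe τ) :=
        split_main Γ S hS (norm_qe_lt τ)
      rw [← h4]
      simp only [hF, hfdef]
      rw [eta_eq, mul_pow, ← Complex.exp_nat_mul]
      have h5 : Complex.exp (2 * Real.pi * Complex.I * a' * (τ : ℂ)) =
          Complex.exp (2 * Real.pi * Complex.I * a * (τ : ℂ)) *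
            Complex.exp (S.card * (2 * Real.pi * Complex.I * (τ : ℂ) / 24)) := by
        rw [← Complex.exp_add]
        congr 1
        rw [ha']
        push_cast
        ring
      rw [h5]
      unfold qe
      ring
    rw [h3, norm_mul, Complex.norm_exp]
    congr 2
    have h6 : (2 * Real.pi * Complex.I * a' * (τ : ℂ) : ℂ) =
        ((2 * Real.pi * a' : ℝ) : ℂ) * (Complex.I * (τ : ℂ)) := by
      push_cast
      ring
    rw [h6, Complex.re_ofReal_mul]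
    simp
  -- the weight
  set k' : ℝ := k + S.card / 2 with hk'
  have hmod : ∀ γ ∈ Δ, ∀ τ : ℍ, ‖F (γ • τ)‖ = ‖denom γ τ‖ ^ k' * ‖F τ‖ := by
    intro γ hγ τ
    have hd0 : 0 < ‖denom γ τ‖ := norm_pos_iff.2 (denom_ne_zero _ τ)
    have h3 : ‖F (γ • τ)‖ = ‖f (γ • τ)‖ * ‖ModularForm.eta ((γ • τ : ℍ) : ℂ)‖ ^ S.card := by
      rw [hF]
      exact (norm_mul _ _).trans (by rw [norm_pow])
    have h4 : ‖F τ‖ = ‖f τ‖ * ‖ModularForm.eta (τ : ℂ)‖ ^ S.card := by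
      rw [hF]
      exact (norm_mul _ _).trans (by rw [norm_pow])
    have h5 : ‖f (γ • τ)‖ = ‖denom γ τ‖ ^ k * ‖f τ‖ := by
      rw [htr γ hγ τ, norm_mul, norm_mul, hv γ hγ, one_mul, Complex.norm_cpow_real]
    rw [h3, h4, h5, norm_eta_smul, mul_pow, ← Real.rpow_natCast (‖denom γ τ‖ ^ _),
      ← Real.rpow_mul hd0.le, hk', Real.rpow_add hd0]
    have h6 : (1 / 2 : ℝ) * (S.card : ℝ) = S.card / 2 := by ring
    rw [h6]
    ring
  have hcusp : ∀ δ : SL(2, ℤ), ∃ C M : ℝ, ∀ τ : ℍ, 1 ≤ τ.im →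
      ‖F (δ • τ)‖ ≤ C * ‖denom δ τ‖ ^ k' * Real.exp (M * τ.im) := by
    intro δ
    obtain ⟨C, M, h3⟩ := hgr δ
    obtain ⟨C', h4⟩ := norm_eta_le
    refine ⟨C * C' ^ S.card, M, fun τ hτ => ?_⟩
    have hd0 : 0 < ‖denom δ τ‖ := norm_pos_iff.2 (denom_ne_zero _ τ)
    have h5 := h3 τ hτ
    have h6 := h4 τ hτ
    have h7 : ‖F (δ • τ)‖ = ‖f (δ • τ)‖ * (‖denom δ τ‖ ^ ((S.card : ℝ) / 2) *
        ‖ModularForm.eta (τ : ℂ)‖ ^ S.card) := by
      simp only [hF]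
      rw [norm_mul, norm_pow, norm_eta_smul, mul_pow, ← Real.rpow_natCast (‖denom δ τ‖ ^ _),
        ← Real.rpow_mul hd0.le]
      have h3 : (1 / 2 : ℝ) * (S.card : ℝ) = S.card / 2 := by ring
      rw [h3]
    rw [h7, hk', Real.rpow_add hd0]
    calc ‖f (δ • τ)‖ * (‖denom δ τ‖ ^ ((S.card : ℝ) / 2) * ‖ModularForm.eta (τ : ℂ)‖ ^ S.card)
        ≤ (C * ‖denom δ τ‖ ^ k * Real.exp (M * τ.im)) *
          (‖denom δ τ‖ ^ ((S.card : ℝ) / 2) * C' ^ S.card) := by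
          refine mul_le_mul h5 ?_ (by positivity) ((norm_nonneg _).trans h5)
          exact mul_le_mul_of_nonneg_left (pow_le_pow_left₀ (norm_nonneg _) h6 _) (by positivity)
      _ = _ := by ring
  have hFd : MDifferentiable 𝓘(ℂ) 𝓘(ℂ) F := hd.mul (eta_mdiff S.card)
  -- the bounds on the real interval
  have hsx : ∑ a : AA S, x a.1 = W := by
    have := sum_split Γ S hx
    omega
  obtain ⟨cl, hcl, hlow'⟩ := lower_pow (adjS Γ S) (EA Γ S) b hb hadj (aad Γ S)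
    (fun n D h => EA_le Γ S n D h) (fun a => x a.1) (fun a => hx.le a.1)
    (fun a ha s hs => only Γ S hx b hadj a ha s hs)
    (fun a a' h => hx.edge a.1 a'.1 a.2 a'.2 h)
  have hlow : ∀ q : ℝ, 1 / 2 ≤ q → q < 1 → cl * (1 - q) ^ (-w) ≤ gR Γ S q := by
    intro q h0 h1
    have h3 := hlow' q h0 h1
    rw [hsx] at h3
    exact h3
  have hupp : ∀ ε : ℝ, 0 < ε → ∃ C : ℝ, 0 < C ∧ ∀ q : ℝ, 1 / 2 ≤ q → q < 1 →
      gR Γ S q ≤ C * (1 - q) ^ (-(w + ε)) := fun ε hε =>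
    upper (adjS Γ S) (EA Γ S) b hb hadj (aad Γ S) (fun n a a' h => edge_bound Γ S n a a' h) W
      (fun z o h => by
        obtain ⟨S', y, h1, h2⟩ := hcov_flat Γ S hx.max b hb hadj z o h
        have := hW S' y h1
        omega) hε
  have hg0 : ∀ q : ℝ, 0 < q → q < 1 → 0 < gR Γ S q := by
    intro q h0 h1
    exact (gt_real_summable (adjS Γ S) (EA Γ S) b hb hadj h0 h1).tsum_pos
      (fun n => (gt_pos (adjS Γ S) (EA Γ S) h0 h1 n).le) 0 (gt_pos (adjS Γ S) (EA Γ S) h0 h1 0)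
  have hpi := Real.pi_pos
  have hpi3 := Real.pi_gt_three
  have hpi4 := Real.pi_lt_four
  set φ : ℝ → ℝ := fun t => Real.exp (-(2 * Real.pi * a' * t)) *
    gR Γ S (Real.exp (-(2 * Real.pi * t))) with hφdef
  have hlt : ∀ t : ℝ, 0 < t → Real.exp (-(2 * Real.pi * t)) < 1 := fun t ht => by
    rw [Real.exp_lt_one_iff]
    have : 0 < 2 * Real.pi * t := by positivity
    linarith
  have hφ : ∀ τ : ℍ, τ.re = 0 → ‖F τ‖ = φ τ.im := by
    intro τ hτ
    rw [hFG, qe_real hτ, GG_real, Complex.norm_real]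
    have h3 := hg0 _ (Real.exp_pos _) (hlt _ τ.im_pos)
    change _ * ‖gR Γ S _‖ = _
    rw [Real.norm_of_nonneg h3.le]
  have hF0 : ∃ τ, F τ ≠ 0 := by
    refine ⟨⟨⟨0, 1⟩, one_pos⟩, norm_pos_iff.1 ?_⟩
    rw [hφ _ rfl]
    exact mul_pos (Real.exp_pos _) (hg0 _ (Real.exp_pos _) (hlt _ one_pos))
  obtain ⟨l, κ, hκ, hlim⟩ := cusp0 hFd hΔ hmod hcusp hF0 φ hφ
  -- the exponential factor
  have hexp : ∀ t : ℝ, 0 < t → t ≤ 1 → Real.exp (-(2 * Real.pi * |a'|)) ≤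
      Real.exp (-(2 * Real.pi * a' * t)) ∧
      Real.exp (-(2 * Real.pi * a' * t)) ≤ Real.exp (2 * Real.pi * |a'|) := by
    intro t ht ht1
    have h6 : |2 * Real.pi * a' * t| ≤ 2 * Real.pi * |a'| := by
      rw [abs_mul, abs_mul, abs_of_pos (by positivity : 0 < 2 * Real.pi), abs_of_pos ht]
      have : 0 ≤ 2 * Real.pi * |a'| := by positivity
      nlinarith
    have h7 := abs_le.1 h6
    exact ⟨Real.exp_le_exp.2 (by linarith), Real.exp_le_exp.2 (by linarith)⟩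
  have hinv : ∀ y : ℝ, 20 ≤ y → 0 < y⁻¹ ∧ y⁻¹ ≤ 1 ∧ 2 * Real.pi * y⁻¹ ≤ 1 / 2 := by
    intro y hy
    have hy0 : 0 < y := by linarith
    have h3 : y⁻¹ ≤ 20⁻¹ := inv_anti₀ (by norm_num) hy
    refine ⟨inv_pos.2 hy0, h3.trans (by norm_num), ?_⟩
    nlinarith
  obtain ⟨hl, hkw⟩ := expo (w := w) hκ hlim
    ⟨Real.exp (-(2 * Real.pi * |a'|)) * (cl * (2 * Real.pi)⁻¹ ^ w), by positivity, by
      filter_upwards [eventually_ge_atTop 20] with y hy
      obtain ⟨h3, h4, h5⟩ := hinv y hy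
      have hy0 : 0 < y := by linarith
      have h6 := hlow (Real.exp (-(2 * Real.pi * y⁻¹))) (by
        have h8 := Real.add_one_le_exp (-(2 * Real.pi * y⁻¹))
        linarith) (hlt _ h3)
      have h7 : (2 * Real.pi)⁻¹ * y ≤ (1 - Real.exp (-(2 * Real.pi * y⁻¹)))⁻¹ := by
        have h8 := Real.add_one_le_exp (-(2 * Real.pi * y⁻¹))
        have h9 : 1 - Real.exp (-(2 * Real.pi * y⁻¹)) ≤ 2 * Real.pi * y⁻¹ := by linarith
        have h10 := inv_anti₀ (by linarith [hlt _ h3]) h9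
        rwa [mul_inv, inv_inv] at h10
      rw [hφdef]
      have hpos : 0 < 1 - Real.exp (-(2 * Real.pi * y⁻¹)) := by linarith [hlt _ h3]
      have h10 : ((2 * Real.pi)⁻¹ * y) ^ w ≤ (1 - Real.exp (-(2 * Real.pi * y⁻¹))) ^ (-w) := by
        rw [Real.rpow_neg hpos.le, ← Real.inv_rpow hpos.le]
        exact Real.rpow_le_rpow (by positivity) h7 hw0
      calc Real.exp (-(2 * Real.pi * |a'|)) * (cl * (2 * Real.pi)⁻¹ ^ w) * y ^ w
          = Real.exp (-(2 * Real.pi * |a'|)) * (cl * ((2 * Real.pi)⁻¹ * y) ^ w) := by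
            rw [Real.mul_rpow (by positivity) hy0.le]
            ring
        _ ≤ _ := mul_le_mul (hexp _ h3 h4).1
            ((mul_le_mul_of_nonneg_left h10 hcl.le).trans h6) (by positivity) (Real.exp_pos _).le⟩
    fun ε hε => by
      obtain ⟨C, hC, h2⟩ := hupp ε hε
      refine ⟨Real.exp (2 * Real.pi * |a'|) * C, by positivity, ?_⟩
      filter_upwards [eventually_ge_atTop 20] with y hy
      obtain ⟨h3, h4, h5⟩ := hinv y hy
      have hy0 : 0 < y := by linarith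
      have h8 := Real.add_one_le_exp (-(2 * Real.pi * y⁻¹))
      have h6 := h2 (Real.exp (-(2 * Real.pi * y⁻¹))) (by linarith) (hlt _ h3)
      have h7 : y⁻¹ ≤ 1 - Real.exp (-(2 * Real.pi * y⁻¹)) := by
        have h9 := Real.add_one_le_exp (2 * Real.pi * y⁻¹)
        have h10 : Real.exp (-(2 * Real.pi * y⁻¹)) * Real.exp (2 * Real.pi * y⁻¹) = 1 := by
          rw [← Real.exp_add, neg_add_cancel, Real.exp_zero]
        have h11 : 0 < Real.exp (-(2 * Real.pi * y⁻¹)) := Real.exp_pos _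
        have h12 : Real.exp (-(2 * Real.pi * y⁻¹)) * (2 * Real.pi * y⁻¹ + 1) ≤ 1 :=
          (mul_le_mul_of_nonneg_left h9 h11.le).trans_eq h10
        by_contra hcon
        push Not at hcon
        have h13 : 6 * y⁻¹ ≤ 2 * Real.pi * y⁻¹ :=
          mul_le_mul_of_nonneg_right (by linarith) h3.le
        set z : ℝ := 2 * Real.pi * y⁻¹ with hz
        have h14 : (1 - y⁻¹) * (z + 1) < Real.exp (-z) * (z + 1) :=
          mul_lt_mul_of_pos_right (by linarith) (by linarith)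
        have h15 : y⁻¹ * z ≤ y⁻¹ * (1 / 2) := mul_le_mul_of_nonneg_left h5 h3.le
        nlinarith
      have h9 : (1 - Real.exp (-(2 * Real.pi * y⁻¹))) ^ (-((w : ℝ) + ε)) ≤
          y ^ ((w : ℝ) + ε) := by
        have h10 := Real.rpow_le_rpow_of_nonpos h3 h7 (z := -((w : ℝ) + ε)) (by
          linarith)
        rwa [Real.inv_rpow hy0.le, ← Real.rpow_neg hy0.le, neg_neg] at h10
      rw [hφdef]
      calc Real.exp (-(2 * Real.pi * a' * y⁻¹)) * gR Γ S (Real.exp (-(2 * Real.pi * y⁻¹)))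
          ≤ Real.exp (2 * Real.pi * |a'|) * (C * y ^ ((w : ℝ) + ε)) :=
            mul_le_mul (hexp _ h3 h4).2 (h6.trans (mul_le_mul_of_nonneg_left h9 hC.le))
              (hg0 _ (Real.exp_pos _) (hlt _ h3)).le (Real.exp_pos _).le
        _ = _ := by ring
  refine ⟨hkw, ?_⟩
  -- the bound for the series
  subst hl
  simp only [zero_mul, Real.exp_zero, mul_one] at hlim
  rw [hkw] at hlim
  have hbd := hlim.eventually (gt_mem_nhds (show κ < κ + 1 by linarith))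
  refine ⟨Real.exp (2 * Real.pi * |a'|) * ((κ + 1) * (2 * Real.pi) ^ w), ?_⟩
  have hy1 : ∀ x : ℝ, 21 ≤ x → 2 * Real.pi * (x - 1) ≤ 2 * Real.pi / (-Real.log (1 - x⁻¹)) ∧
      2 * Real.pi / (-Real.log (1 - x⁻¹)) ≤ 2 * Real.pi * x := by
    intro x hx
    have hx0 : 0 < x := by linarith
    have h3 : x⁻¹ ≤ 21⁻¹ := inv_anti₀ (by norm_num) hx
    have h4 : 0 < x⁻¹ := inv_pos.2 hx0
    have h5 : 0 < 1 - x⁻¹ := by
      norm_num at h3 ⊢
      linarith
    have h6 := Real.log_le_sub_one_of_pos h5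
    have h7 := Real.log_le_sub_one_of_pos (inv_pos.2 h5)
    rw [Real.log_inv] at h7
    have h8 : (1 - x⁻¹)⁻¹ - 1 = (x - 1)⁻¹ := by
      have : x - 1 ≠ 0 := by linarith
      field_simp
      ring
    rw [h8] at h7
    have h9 : 0 < -Real.log (1 - x⁻¹) := by linarith
    constructor
    · rw [le_div_iff₀ h9]
      have h10 : 0 < x - 1 := by linarith
      have h11 : (x - 1) * -Real.log (1 - x⁻¹) ≤ 1 := by
        calc (x - 1) * -Real.log (1 - x⁻¹) ≤ (x - 1) * (x - 1)⁻¹ :=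
              mul_le_mul_of_nonneg_left h7 h10.le
          _ = 1 := mul_inv_cancel₀ h10.ne'
      nlinarith
    · rw [div_le_iff₀ h9]
      have h11 : 1 ≤ x * -Real.log (1 - x⁻¹) := by
        calc 1 = x * x⁻¹ := (mul_inv_cancel₀ hx0.ne').symm
          _ ≤ _ := mul_le_mul_of_nonneg_left (by linarith) hx0.le
      nlinarith
  have hyt : Tendsto (fun x : ℝ => 2 * Real.pi / (-Real.log (1 - x⁻¹))) atTop atTop := by
    refine tendsto_atTop_mono' _ ?_ ((tendsto_atTop_add_const_right atTop (-1 : ℝ)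
      tendsto_id).const_mul_atTop (show (0 : ℝ) < 2 * Real.pi by positivity))
    filter_upwards [eventually_ge_atTop 21] with x hx
    exact (hy1 x hx).1
  filter_upwards [hyt.eventually hbd, eventually_ge_atTop 21] with x h3 hx
  obtain ⟨h4, h5⟩ := hy1 x hx
  set y : ℝ := 2 * Real.pi / (-Real.log (1 - x⁻¹)) with hy
  have hx0 : 0 < x := by linarith
  have hy20 : 20 ≤ y := by nlinarith
  have hy0 : 0 < y := by linarith
  obtain ⟨h6, h7, -⟩ := hinv y hy20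
  have h8 : 0 < 1 - x⁻¹ := by
    have h3 : x⁻¹ ≤ 21⁻¹ := inv_anti₀ (by norm_num) hx
    norm_num at h3 ⊢
    linarith
  have h9 : Real.exp (-(2 * Real.pi * y⁻¹)) = 1 - x⁻¹ := by
    have h10 : 2 * Real.pi * y⁻¹ = -Real.log (1 - x⁻¹) := by
      rw [hy, inv_div]
      field_simp
    rw [h10, neg_neg, Real.exp_log h8]
  have h10 : φ y⁻¹ ≤ (κ + 1) * y ^ w := by
    rw [Real.rpow_neg hy0.le, ← div_eq_mul_inv, div_lt_iff₀ (by positivity)] at h3
    exact h3.le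
  have h11 : gR Γ S (1 - x⁻¹) ≤ Real.exp (2 * Real.pi * |a'|) * φ y⁻¹ := by
    have h12 : φ y⁻¹ = Real.exp (-(2 * Real.pi * a' * y⁻¹)) * gR Γ S (1 - x⁻¹) := by
      rw [hφdef]
      simp only [h9]
    have h13 : 0 < gR Γ S (1 - x⁻¹) := hg0 _ h8 (by
      have : 0 < x⁻¹ := inv_pos.2 hx0
      linarith)
    have h14 := (hexp _ h6 h7).1
    have h15 : Real.exp (2 * Real.pi * |a'|) * Real.exp (-(2 * Real.pi * |a'|)) = 1 := by
      rw [← Real.exp_add, add_neg_cancel, Real.exp_zero]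
    rw [h12]
    calc gR Γ S (1 - x⁻¹) = Real.exp (2 * Real.pi * |a'|) *
          (Real.exp (-(2 * Real.pi * |a'|)) * gR Γ S (1 - x⁻¹)) := by
          rw [← mul_assoc, h15, one_mul]
      _ ≤ _ := by gcongr
  calc gR Γ S (1 - x⁻¹) ≤ Real.exp (2 * Real.pi * |a'|) * ((κ + 1) * y ^ w) :=
        h11.trans (mul_le_mul_of_nonneg_left h10 (Real.exp_pos _).le)
    _ ≤ Real.exp (2 * Real.pi * |a'|) * ((κ + 1) * (2 * Real.pi * x) ^ w) := by
        gcongr
    _ = _ := by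
        rw [Real.mul_rpow (by positivity) hx0.le]
        ring

end

/-- The weight of a modular graph series of a Koenig-Egervary graph, and the logarithm criterion. -/
theorem weight {r : ℕ} (Γ : SimpleGraph (Fin r)) [DecidableRel Γ.Adj] (hΓ : KE Γ)
    (S : Finset (Fin r)) (x : Fin r → ℕ) (hx : HalfFlat Γ S x)
    (hmax : ∀ (S' : Finset (Fin r)) (y : Fin r → ℕ), HalfFlat Γ S' y → ∑ v, y v ≤ ∑ v, x v)
    (a k : ℝ)
    (hf : IsModularForm k fun τ : ℍ => Complex.exp (2 * Real.pi * Complex.I * a * (τ : ℂ)) *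
      graphSeries Γ (Complex.exp (2 * Real.pi * Complex.I * (τ : ℂ)))) :
    k = ((∑ v, x v : ℕ) : ℝ) / 2 - 3 / 2 * S.card := by
  obtain ⟨b, hb, hadj⟩ := max_match Γ S hΓ hx.max
  have h1 := sum_split Γ S hx
  have h2 := (main_aux Γ S b hb hadj (∑ a : AA S, x a.1)
    (fun S' y hy => (hmax S' y hy).trans h1.le) hx h1 a k hf).1
  rw [h1]
  push_cast at h2 ⊢
  linarith

theorem two_half {r : ℕ} (Γ : SimpleGraph (Fin r)) [DecidableRel Γ.Adj] (hΓ : KE Γ)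
    (S : Finset (Fin r)) (x y : Fin r → ℕ) (hx : HalfFlat Γ S x) (hy : HalfFlat Γ S y)
    (hne : x ≠ y) (hc : ∑ v, x v = ∑ v, y v)
    (hmax : ∀ (S' : Finset (Fin r)) (z : Fin r → ℕ), HalfFlat Γ S' z → ∑ v, z v ≤ ∑ v, x v)
    (a k : ℝ) :
    ¬ IsModularForm k fun τ : ℍ => Complex.exp (2 * Real.pi * Complex.I * a * (τ : ℂ)) *
      graphSeries Γ (Complex.exp (2 * Real.pi * Complex.I * (τ : ℂ))) := by
  intro hf
  obtain ⟨b, hb, hadj⟩ := max_match Γ S hΓ hx.max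
  have h1 := sum_split Γ S hx
  have h1' := sum_split Γ S hy
  obtain ⟨C, hC⟩ := (main_aux Γ S b hb hadj (∑ a : AA S, x a.1)
    (fun S' y hy => (hmax S' y hy).trans h1.le) hx h1 a k hf).2
  obtain ⟨c, hc0, h6⟩ := lower_pair (adjS Γ S) (EA Γ S) b hb hadj (aad Γ S)
    (fun n D h => EA_le Γ S n D h) (fun a => x a.1) (fun a => y a.1)
    (fun a => hx.le a.1) (fun a => hy.le a.1)
    (fun a ha s hs => only Γ S hx b hadj a ha s hs)
    (fun a ha s hs => only Γ S hy b hadj a ha s hs)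
    (fun a a' h => hx.edge a.1 a'.1 a.2 a'.2 h) (fun a a' h => hy.edge a.1 a'.1 a.2 a'.2 h)
    (fun h => hne (by
      funext v
      by_cases hv : v ∈ S
      · rw [hx.two v hv, hy.two v hv]
      · exact congrFun h ⟨v, hv⟩)) (by omega)
  exact log_contra hc0 h6 hC

end Pool.Agent.H93.KW
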