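import Pool.Agent.H93.KW.Defs

/-!
# KW Round: rounding of the exponents, half-integral version (MP_b63d87_nt, helper93)
-/

set_option autoImplicit false

namespace Pool.Agent.H93.KW

open Finset Pool.Agent.H25.GW

theorem hround_le {A : Type} [Fintype A] (u : A → ℝ) {mu lam : ℝ} (h0 : 0 < mu) (h1 : mu < 1)
    (hlam : lam = mu ^ 2) {N : ℕ} (hu0 : ∀ a, 0 ≤ u a) (hu1 : ∀ a, u a ≤ 1) (W : ℕ)
    (hW : ∀ j ∈ Icc 1 (N - 1), ∃ z o : A → ℕ,
      (∀ a, z a ≤ (if u a ≤ lam ^ j then 1 else 0) + (if u a ≤ lam ^ (N - j) then 1 else 0)) ∧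
      (∀ a, o a ≤ (if 1 - u a ≤ lam ^ j then 1 else 0) +
        (if 1 - u a ≤ lam ^ (N - j) then 1 else 0)) ∧
      2 * Fintype.card A ≤ ∑ a, z a + ∑ a, o a + W) :
    ∏ a, (max (u a) (lam ^ N) * max (1 - u a) (lam ^ N)) ≤
      mu ^ ((N - 1) * (2 * Fintype.card A - W)) := by
  classical
  have hl0 : 0 < lam := by rw [hlam]; positivity
  have hl1 : lam < 1 := by
    rw [hlam]
    exact pow_lt_one₀ h0.le h1 (by norm_num)
  -- the pointwise bound
  have hp : ∏ a, (max (u a) (lam ^ N) * max (1 - u a) (lam ^ N)) ≤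
      lam ^ ∑ a, (cnt lam N (u a) + cnt lam N (1 - u a)) := by
    rw [← prod_pow_eq_pow_sum]
    refine prod_le_prod (fun a _ => ?_) fun a _ => ?_
    · exact mul_nonneg (le_max_of_le_left (hu0 a)) (le_max_of_le_right (by positivity))
    · rw [pow_add]
      refine mul_le_mul (max_le_pow_cnt hl0 hl1 N (hu1 a)) (max_le_pow_cnt hl0 hl1 N ?_) ?_
        (by positivity)
      · have := hu0 a
        linarith
      · exact le_max_of_le_right (by positivity)
  refine hp.trans ?_
  rw [hlam, ← pow_mul]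
  refine pow_le_pow_of_le_one h0.le h1.le ?_
  rw [← hlam]
  -- double counting
  have hz : ∀ x : ℝ, 2 * cnt lam N x = ∑ j ∈ Icc 1 (N - 1),
      ((if x ≤ lam ^ j then 1 else 0) + if x ≤ lam ^ (N - j) then 1 else 0) := by
    intro x
    rw [sum_add_distrib, ← card_filter, ← card_filter, cnt_refl]
    unfold cnt
    rw [two_mul]
  have hs : 2 * ∑ a, (cnt lam N (u a) + cnt lam N (1 - u a)) =
      ∑ j ∈ Icc 1 (N - 1), ((∑ a, ((if u a ≤ lam ^ j then 1 else 0) +
          if u a ≤ lam ^ (N - j) then 1 else 0)) +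
        ∑ a, ((if 1 - u a ≤ lam ^ j then 1 else 0) +
          if 1 - u a ≤ lam ^ (N - j) then 1 else 0)) := by
    rw [mul_sum, sum_add_distrib]
    rw [sum_comm (s := Icc 1 (N - 1)), sum_comm (s := Icc 1 (N - 1)), ← sum_add_distrib]
    refine sum_congr rfl fun a _ => ?_
    rw [← hz, ← hz]
    ring
  rw [hs]
  calc (N - 1) * (2 * Fintype.card A - W) =
        ∑ _j ∈ Icc 1 (N - 1), (2 * Fintype.card A - W) := by
        rw [sum_const, Nat.card_Icc, smul_eq_mul]
        simp
    _ ≤ _ := by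
        refine sum_le_sum fun j hj => ?_
        obtain ⟨z, o, hZ, hO, hc⟩ := hW j hj
        have h2 := sum_le_sum fun a (_ : a ∈ (univ : Finset A)) => hZ a
        have h3 := sum_le_sum fun a (_ : a ∈ (univ : Finset A)) => hO a
        omega

end Pool.Agent.H93.KW
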