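import Pool.Agent.H93.KW.Round

/-!
# KW Upper: the growth of the reduced series, half-integral version (MP_b63d87_nt, helper93)

Copy of `H25/GW/Upper` (import it and reuse `rpow_large`, `exp_small`, `vt`, `one_sum`, ...) without the colouring: in
`small_case` put for `1 ≤ j ≤ N - 1`: `z a = (if u a ≤ lam ^ j then 1 else 0) + (if u a ≤ lam ^ (N - j) then 1 else 0)`,
`o a` the same with `1 - u a`.  It is an `HCov`: `u a * (1 - u a') ≤ lam ^ N = lam ^ j * lam ^ (N - j)` gives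
(`u a ≤ lam ^ j` or `1 - u a' ≤ lam ^ (N - j)`) and (`u a ≤ lam ^ (N - j)` or `1 - u a' ≤ lam ^ j`), so `2 ≤ z a + o a'`;
`p2` from `1 - u a ≤ lam ^ N`; `p3` like `p1`; `zo`: `lam < 1 / 2`.  Then `hround_le` gives the bound with
`mu ^ ((N - 1) * (2 * |A| - W))`, `lam = mu ^ 2`.  In `upper`: `p = (1 - η) / N`, `mu = (1 - q) ^ (p / 2)`.
-/

set_option autoImplicit false

namespace Pool.Agent.H93.KW

open Finset H93GS Pool.Agent.H25.GW

section

variable {A B : Type} [Fintype A] [Fintype B]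
  (adj : A → B → Prop) [∀ a s, Decidable (adj a s)] (E : (A → ℕ) → ℕ) (b : A → B)

/-- products: one of the two factors is small -/
private theorem or_Upper {x y α β δ : ℝ} (hα : 0 ≤ α) (hβ : 0 ≤ β) (hδ : δ = α * β)
    (h : x * y ≤ δ) : x ≤ α ∨ y ≤ β := by
  by_contra hcon
  rw [not_or, not_le, not_le] at hcon
  have h2 : α * β < x * y := mul_lt_mul'' hcon.1 hcon.2 hα hβ
  linarith

/-- all penalties are small: the product of the maxima is small -/
private theorem small_Upper (aadj : A → A → Prop) (W : ℕ)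
    (hW : ∀ z o, HCov adj aadj b z o → 2 * Fintype.card A ≤ ∑ a, z a + ∑ a, o a + W)
    (u : A → ℝ) (hu0 : ∀ a, 0 ≤ u a) (hu1 : ∀ a, u a ≤ 1) {mu lam : ℝ} (hm0 : 0 < mu)
    (hm1 : mu < 1) (hlam : lam = mu ^ 2) (hl0 : 0 < lam)
    (hl1 : lam < 1 / 2) {N : ℕ}
    (hp1 : ∀ a a', a ≠ a' → adj a' (b a) → u a * (1 - u a') ≤ lam ^ N)
    (hp2 : ∀ s, (∀ a, b a ≠ s) → ∀ a, adj a s → 1 - u a ≤ lam ^ N)
    (hp3 : ∀ a a', aadj a a' → (1 - u a) * (1 - u a') ≤ lam ^ N) :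
    ∏ a, (max (u a) (lam ^ N) * max (1 - u a) (lam ^ N)) ≤
      mu ^ ((N - 1) * (2 * Fintype.card A - W)) := by
  refine hround_le u hm0 hm1 hlam hu0 hu1 W fun j hj => ?_
  rw [mem_Icc] at hj
  have hα : (0 : ℝ) ≤ lam ^ j := by positivity
  have hβ : (0 : ℝ) ≤ lam ^ (N - j) := by positivity
  have hN1 : lam ^ N = lam ^ j * lam ^ (N - j) := by
    rw [← pow_add]
    congr 1
    omega
  have hN2 : lam ^ N = lam ^ (N - j) * lam ^ j := by
    rw [hN1, mul_comm]
  have hj1 : lam ^ j ≤ lam := by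
    calc lam ^ j ≤ lam ^ 1 := pow_le_pow_of_le_one hl0.le (by linarith) (by omega)
      _ = lam := pow_one _
  have hj2 : lam ^ (N - j) ≤ lam := by
    calc lam ^ (N - j) ≤ lam ^ 1 := pow_le_pow_of_le_one hl0.le (by linarith) (by omega)
      _ = lam := pow_one _
  have hj3 : lam ^ N ≤ lam ^ j := pow_le_pow_of_le_one hl0.le (by linarith) (by omega)
  have hj4 : lam ^ N ≤ lam ^ (N - j) := pow_le_pow_of_le_one hl0.le (by linarith) (by omega)
  have hite : ∀ (p r : Prop) [Decidable p] [Decidable r],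
      (if p then 1 else 0) + (if r then 1 else 0) ≤ 2 := by
    intro p r _ _
    split_ifs <;> norm_num
  have hor : ∀ (p r p' r' : Prop) [Decidable p] [Decidable r] [Decidable p'] [Decidable r'],
      (p ∨ r') → (r ∨ p') →
      2 ≤ ((if p then 1 else 0) + (if r then 1 else 0)) +
        ((if p' then 1 else 0) + (if r' then 1 else 0)) := by
    intro p r p' r' _ _ _ _ h1 h2
    by_cases hp : p <;> by_cases hr : r <;> by_cases hp' : p' <;> by_cases hr' : r' <;>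
      simp_all
  refine ⟨fun a => (if u a ≤ lam ^ j then 1 else 0) + (if u a ≤ lam ^ (N - j) then 1 else 0),
    fun a => (if 1 - u a ≤ lam ^ j then 1 else 0) + (if 1 - u a ≤ lam ^ (N - j) then 1 else 0),
    fun a => le_rfl, fun a => le_rfl, hW _ _ ⟨fun a => hite _ _, fun a => hite _ _, fun a => ?_,
      fun a a' hne h => ?_, fun s hs a h => ?_, fun a a' h => ?_⟩⟩
  · rcases le_or_gt (u a) (1 / 2) with h | h
    · right
      have h1 : ¬ (1 - u a ≤ lam ^ j) := fun h2 => by linarith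
      have h3 : ¬ (1 - u a ≤ lam ^ (N - j)) := fun h2 => by linarith
      simp only [if_neg h1, if_neg h3]
    · left
      have h1 : ¬ (u a ≤ lam ^ j) := fun h2 => by linarith
      have h3 : ¬ (u a ≤ lam ^ (N - j)) := fun h2 => by linarith
      simp only [if_neg h1, if_neg h3]
  · exact hor _ _ _ _ (or_Upper hα hβ hN1 (hp1 a a' hne h)) (or_Upper hβ hα hN2 (hp1 a a' hne h))
  · have h1 := hp2 s hs a h
    have h2 : 1 - u a ≤ lam ^ j := h1.trans hj3
    have h3 : 1 - u a ≤ lam ^ (N - j) := h1.trans hj4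
    simp only [if_pos h2, if_pos h3]
    norm_num
  · exact hor _ _ _ _ (or_Upper hα hβ hN1 (hp3 a a' h)) (or_Upper hβ hα hN2 (hp3 a a' h))

private theorem point_Upper (hb : Function.Injective b) (hadj : ∀ a, adj a (b a))
    (aadj : A → A → Prop)
    (hE : ∀ n a a', aadj a a' → n a * n a' ≤ E n) (W : ℕ)
    (hW : ∀ z o, HCov adj aadj b z o → 2 * Fintype.card A ≤ ∑ a, z a + ∑ a, o a + W)
    {q : ℝ} (h0 : 0 < q) (h1 : q < 1) {mu lam : ℝ} (hm0 : 0 < mu)
    (hm1 : mu < 1) (hlam : lam = mu ^ 2) (hl0 : 0 < lam) (hl1 : lam < 1 / 2) {N : ℕ}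
    (hbig : Real.exp (-(q / (1 - q) * lam ^ N)) ≤ (1 - q) ^ Fintype.card A) (n : A → ℕ) :
    gt adj E q n ≤ (1 - q) ^ Fintype.card A * (∏ a, q ^ n a) +
      mu ^ ((N - 1) * (2 * Fintype.card A - W)) * ∏ a, vt q (lam ^ N) (n a) := by
  have ht : 0 < 1 - q := by linarith
  have hθ : 0 < q / (1 - q) := by positivity
  have hδ : 0 < lam ^ N := by positivity
  have hu0 : ∀ a, 0 < q ^ n a := fun a => by positivity
  have hu1 : ∀ a, q ^ n a ≤ 1 := fun a => pow_le_one₀ h0.le h1.le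
  have hP : 0 ≤ ∏ a, q ^ n a := Finset.prod_nonneg fun a _ => (hu0 a).le
  have hV : 0 ≤ ∏ a, vt q (lam ^ N) (n a) := Finset.prod_nonneg fun a _ => vt_nonneg h0 hδ _
  -- a large penalty
  have big : ∀ x : ℝ, lam ^ N < x →
      q ^ E n * ∏ s, realbdRho adj b q n s ≤ Real.exp (-(q / (1 - q) * x)) →
      gt adj E q n ≤ (1 - q) ^ Fintype.card A * (∏ a, q ^ n a) +
      mu ^ ((N - 1) * (2 * Fintype.card A - W)) * ∏ a, vt q (lam ^ N) (n a) := by
    intro x hx h2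
    rw [realbd_gt adj b E hb]
    have h3 : q ^ E n * ∏ s, realbdRho adj b q n s ≤ (1 - q) ^ Fintype.card A := by
      refine h2.trans (le_trans (Real.exp_le_exp.2 (neg_le_neg ?_)) hbig)
      exact mul_le_mul_of_nonneg_left hx.le hθ.le
    have h4 : (∏ a, q ^ n a) * (q ^ E n * ∏ s, realbdRho adj b q n s) ≤
        (1 - q) ^ Fintype.card A * (∏ a, q ^ n a) := by
      rw [mul_comm]
      exact mul_le_mul_of_nonneg_right h3 hP
    have h5 : 0 ≤ mu ^ ((N - 1) * (2 * Fintype.card A - W)) * ∏ a, vt q (lam ^ N) (n a) :=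
      mul_nonneg (by positivity) hV
    linarith
  by_cases hp1 : ∀ a a', a ≠ a' → adj a' (b a) → q ^ n a * (1 - q ^ n a') ≤ lam ^ N
  · by_cases hp2 : ∀ s, (∀ a, b a ≠ s) → ∀ a, adj a s → 1 - q ^ n a ≤ lam ^ N
    · by_cases hp3 : ∀ a a', aadj a a' → (1 - q ^ n a) * (1 - q ^ n a') ≤ lam ^ N
      · have h2 := small_Upper adj b aadj W hW (fun a => q ^ n a)
          (fun a => (hu0 a).le) hu1 hm0 hm1 hlam hl0 hl1 hp1 hp2 hp3
        have h3 : ∏ a, q ^ n a = (∏ a, vt q (lam ^ N) (n a)) *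
            ∏ a, (max (q ^ n a) (lam ^ N) * max (1 - q ^ n a) (lam ^ N)) := by
          rw [← Finset.prod_mul_distrib]
          refine Finset.prod_congr rfl fun a _ => ?_
          unfold vt
          have h4 : 0 < max (q ^ n a) (lam ^ N) := lt_max_of_lt_right hδ
          have h5 : 0 < max (1 - q ^ n a) (lam ^ N) := lt_max_of_lt_right hδ
          field_simp
        have h4 := realser_le adj E b hb hadj h0 h1 n
        have h5 : ∏ a, q ^ n a ≤
            mu ^ ((N - 1) * (2 * Fintype.card A - W)) * ∏ a, vt q (lam ^ N) (n a) := by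
          rw [h3, mul_comm]
          exact mul_le_mul_of_nonneg_right h2 hV
        have h6 : 0 ≤ (1 - q) ^ Fintype.card A * (∏ a, q ^ n a) := by positivity
        linarith
      · push Not at hp3
        obtain ⟨a, a', h, h2⟩ := hp3
        exact big _ h2 (realbd_p3 adj b E hb hadj aadj hE h0 h1 n h)
    · push Not at hp2
      obtain ⟨s, hs, a, h, h2⟩ := hp2
      exact big _ h2 (realbd_p2 adj b hb hadj h0 h1 n (E n) hs h)
  · push Not at hp1
    obtain ⟨a, a', hne, h, h2⟩ := hp1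
    exact big _ h2 (realbd_p1 adj b hb hadj h0 h1 n (E n) hne h)

private theorem sum_Upper (hb : Function.Injective b) (hadj : ∀ a, adj a (b a))
    (aadj : A → A → Prop)
    (hE : ∀ n a a', aadj a a' → n a * n a' ≤ E n) (W : ℕ)
    (hW : ∀ z o, HCov adj aadj b z o → 2 * Fintype.card A ≤ ∑ a, z a + ∑ a, o a + W)
    {q : ℝ} (h0 : 0 < q) (h1 : q < 1) {mu lam : ℝ} (hm0 : 0 < mu)
    (hm1 : mu < 1) (hlam : lam = mu ^ 2) (hl0 : 0 < lam) (hl1 : lam < 1 / 2) {N : ℕ}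
    (hbig : Real.exp (-(q / (1 - q) * lam ^ N)) ≤ (1 - q) ^ Fintype.card A)
    {V : ℝ} (hs : Summable (vt q (lam ^ N))) (hV : ∑' k, vt q (lam ^ N) k ≤ V) :
    ∑' n : A → ℕ, gt adj E q n ≤ 1 +
      mu ^ ((N - 1) * (2 * Fintype.card A - W)) * V ^ Fintype.card A := by
  have ht : 0 < 1 - q := by linarith
  have hδ : 0 < lam ^ N := by positivity
  obtain ⟨h2, h3⟩ := realser_geo (A := A) h0 h1
  obtain ⟨h4, h5⟩ := pi_real (ι := A) (f := fun _ k => vt q (lam ^ N) k)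
    (fun _ _ => vt_nonneg h0 hδ _) fun _ => hs
  have h6 := (h2.mul_left ((1 - q) ^ Fintype.card A)).add
    (h4.mul_left (mu ^ ((N - 1) * (2 * Fintype.card A - W))))
  have h7 := (gt_real_summable adj E b hb hadj h0 h1).tsum_le_tsum
    (point_Upper adj E b hb hadj aadj hE W hW h0 h1 hm0 hm1 hlam hl0 hl1 hbig) h6
  refine h7.trans ?_
  rw [(h2.mul_left _).tsum_add (h4.mul_left _), tsum_mul_left, tsum_mul_left, h3, h5,
    Finset.prod_const, Finset.card_univ]
  have h8 : (1 - q) ^ Fintype.card A * (1 - q)⁻¹ ^ Fintype.card A = 1 := by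
    rw [← mul_pow, mul_inv_cancel₀ ht.ne', one_pow]
  rw [h8]
  have h9 : 0 ≤ ∑' k, vt q (lam ^ N) k := tsum_nonneg fun k => vt_nonneg h0 hδ _
  gcongr

theorem upper (hb : Function.Injective b) (hadj : ∀ a, adj a (b a)) (aadj : A → A → Prop)
    (hE : ∀ n a a', aadj a a' → n a * n a' ≤ E n) (W : ℕ)
    (hW : ∀ z o, HCov adj aadj b z o → 2 * Fintype.card A ≤ ∑ a, z a + ∑ a, o a + W)
    {ε : ℝ} (hε : 0 < ε) : ∃ C : ℝ, 0 < C ∧ ∀ q : ℝ, 1 / 2 ≤ q → q < 1 →
      ∑' n : A → ℕ, gt adj E q n ≤ C * (1 - q) ^ (-((W : ℝ) / 2 + ε)) := by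
  set m : ℕ := Fintype.card A with hm
  -- parameters
  obtain ⟨N, hN2, hN⟩ : ∃ N : ℕ, 2 ≤ N ∧ (m : ℝ) / N ≤ ε / 2 := by
    obtain ⟨N, hN⟩ := exists_nat_gt ((m : ℝ) / (ε / 2))
    refine ⟨N + 2, by omega, ?_⟩
    have h2 : (0 : ℝ) < ((N + 2 : ℕ) : ℝ) := by positivity
    rw [div_le_iff₀ h2]
    rw [div_lt_iff₀ (by positivity)] at hN
    push_cast
    nlinarith
  obtain ⟨η, hη0, hη1, hη⟩ : ∃ η : ℝ, 0 < η ∧ η < 1 ∧ 3 * η * m ≤ ε / 2 := by
    refine ⟨min (1 / 2) (ε / (6 * ((m : ℝ) + 1))), by positivity, ?_, ?_⟩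
    · exact (min_le_left _ _).trans_lt (by norm_num)
    · have h2 : min (1 / 2) (ε / (6 * ((m : ℝ) + 1))) ≤ ε / (6 * ((m : ℝ) + 1)) := min_le_right _ _
      calc 3 * min (1 / 2) (ε / (6 * ((m : ℝ) + 1))) * m ≤ 3 * (ε / (6 * ((m : ℝ) + 1))) * (m + 1) := by
            gcongr
            linarith
        _ = ε / 2 := by
            field_simp
            norm_num
  have hN0 : (0 : ℝ) < N := by
    have : 0 < N := by omega
    exact_mod_cast this
  obtain ⟨C, hC0, hC⟩ := one_sum hη0 hη1.le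
  set p : ℝ := (1 - η) / N with hp
  have hp0 : 0 < p := div_pos (by linarith) hN0
  -- the threshold
  obtain ⟨t₀, ht₀0, ht₀1, hta, htb⟩ : ∃ t₀ : ℝ, 0 < t₀ ∧ t₀ ≤ 1 ∧
      (∀ t, 0 < t → t ≤ t₀ → 4 * (m : ℝ) / η ≤ t ^ (-(η / 2))) ∧
      ∀ t, 0 < t → t ≤ t₀ → t ^ p < 1 / 2 := by
    have hK : 0 < 4 * (m : ℝ) / η + 1 := by positivity
    refine ⟨min 1 (min ((4 * (m : ℝ) / η + 1) ^ (-(η / 2)⁻¹)) ((3 : ℝ) ^ (-p⁻¹))), ?_,
      min_le_left _ _, fun t ht h => ?_, fun t ht h => ?_⟩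
    · have h2 := Real.rpow_pos_of_pos hK (-(η / 2)⁻¹)
      have h3 := Real.rpow_pos_of_pos (show (0 : ℝ) < 3 by norm_num) (-p⁻¹)
      positivity
    · have h2 := rpow_large (p := η / 2) (by positivity) hK ht
        (h.trans ((min_le_right _ _).trans (min_le_left _ _)))
      linarith
    · have h2 := rpow_large (p := p) hp0 (K := 3) (by norm_num) ht
        (h.trans ((min_le_right _ _).trans (min_le_right _ _)))
      rw [Real.rpow_neg ht.le] at h2
      have h3 : 0 < t ^ p := Real.rpow_pos_of_pos ht _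
      have h4 : t ^ p ≤ 3⁻¹ := by
        rw [← inv_inv (t ^ p)]
        exact inv_anti₀ (by norm_num) h2
      have h5 : (3 : ℝ)⁻¹ < 1 / 2 := by norm_num
      linarith
  refine ⟨1 + C ^ m + t₀⁻¹ ^ m, by positivity, fun q hq1 hq2 => ?_⟩
  have h0 : 0 < q := by linarith
  have ht : 0 < 1 - q := by linarith
  have ht1 : 1 - q ≤ 1 := by linarith
  have hX : 1 ≤ (1 - q) ^ (-((W : ℝ) / 2 + ε)) :=
    Real.one_le_rpow_of_pos_of_le_one_of_nonpos ht ht1 (by
      have : (0 : ℝ) ≤ W := Nat.cast_nonneg W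
      linarith)
  rcases le_total (1 - q) t₀ with hsmall | hlarge
  · -- the main case
    set mu : ℝ := (1 - q) ^ (p / 2) with hmu
    set lam : ℝ := (1 - q) ^ p with hlam
    have hm0 : 0 < mu := Real.rpow_pos_of_pos ht _
    have hml : lam = mu ^ 2 := by
      rw [hmu, hlam, ← Real.rpow_natCast, ← Real.rpow_mul ht.le]
      congr 1
      push_cast
      ring
    have hl0 : 0 < lam := Real.rpow_pos_of_pos ht _
    have hl1 : lam < 1 / 2 := htb _ ht hsmall
    have hm1 : mu < 1 := by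
      rw [hmu]
      exact Real.rpow_lt_one ht.le (by linarith) (by linarith)
    have hlN : lam ^ N = (1 - q) ^ (1 - η) := by
      rw [hlam, ← Real.rpow_natCast, ← Real.rpow_mul ht.le, hp, div_mul_cancel₀ _ hN0.ne']
    have hbig : Real.exp (-(q / (1 - q) * lam ^ N)) ≤ (1 - q) ^ m := by
      rw [hlN]
      exact exp_small hη0 ht hq1 (hta _ ht hsmall)
    have hδ1 : 1 - q ≤ lam ^ N := by
      rw [hlN]
      calc 1 - q = (1 - q) ^ (1 : ℝ) := (Real.rpow_one _).symm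
        _ ≤ _ := Real.rpow_le_rpow_of_exponent_ge ht ht1 (by linarith)
    have hδ2 : lam ^ N ≤ 1 := pow_le_one₀ hl0.le (by linarith)
    obtain ⟨hs, hV⟩ := hC q (lam ^ N) h0 hq2 hδ1 hδ2
    have h2 := sum_Upper adj E b hb hadj aadj hE W hW h0 hq2 hm0 hm1 hml hl0 hl1 hbig hs hV
    refine h2.trans ?_
    rw [← hm]
    have h3 : mu ^ ((N - 1) * (2 * m - W)) * (C * (1 - q) ^ (-(1 + 2 * η))) ^ m =
        C ^ m * (1 - q) ^ (p / 2 * (((N - 1) * (2 * m - W) : ℕ) : ℝ) + -(1 + 2 * η) * m) := by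
      rw [hmu, ← Real.rpow_natCast ((1 - q) ^ (p / 2)), ← Real.rpow_mul ht.le, mul_pow,
        ← Real.rpow_natCast ((1 - q) ^ (-(1 + 2 * η))), ← Real.rpow_mul ht.le, Real.rpow_add ht]
      ring
    have h4 : -((W : ℝ) / 2 + ε) ≤
        p / 2 * (((N - 1) * (2 * m - W) : ℕ) : ℝ) + -(1 + 2 * η) * m := by
      have h5 : 2 * (m : ℝ) - W ≤ ((2 * m - W : ℕ) : ℝ) := by
        rcases le_total W (2 * m) with h | h
        · rw [Nat.cast_sub h]
          push_cast
          exact le_rfl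
        · rw [Nat.sub_eq_zero_of_le h, Nat.cast_zero]
          have : 2 * (m : ℝ) ≤ W := by exact_mod_cast h
          linarith
      have h6 : ((2 * m - W : ℕ) : ℝ) ≤ 2 * m := by
        exact_mod_cast Nat.sub_le (2 * m) W
      have h7 : (((N - 1) * (2 * m - W) : ℕ) : ℝ) = ((N : ℝ) - 1) * ((2 * m - W : ℕ) : ℝ) := by
        rw [Nat.cast_mul, Nat.cast_sub (by omega), Nat.cast_one]
      rw [h7]
      set d : ℝ := ((2 * m - W : ℕ) : ℝ) with hd
      have hd0 : 0 ≤ d := Nat.cast_nonneg _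
      have h8 : p / 2 * (((N : ℝ) - 1) * d) = (1 - η) * (1 - 1 / N) * d / 2 := by
        rw [hp]
        field_simp
      have h9 : 1 - η - 1 / N ≤ (1 - η) * (1 - 1 / (N : ℝ)) := by
        have : 0 < 1 / (N : ℝ) := by positivity
        nlinarith
      have h10 : (1 - η - 1 / N) * d ≤ (1 - η) * (1 - 1 / (N : ℝ)) * d :=
        mul_le_mul_of_nonneg_right h9 hd0
      have h11 : 1 / (N : ℝ) * d ≤ 2 * (m / N) := by
        have h13 : 0 ≤ 1 / (N : ℝ) := by positivity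
        have h14 : 1 / (N : ℝ) * d ≤ 1 / (N : ℝ) * (2 * m) := mul_le_mul_of_nonneg_left h6 h13
        have h15 : 1 / (N : ℝ) * (2 * m) = 2 * (m / N) := by ring
        linarith
      have h12 : η * d ≤ η * (2 * m) := mul_le_mul_of_nonneg_left h6 hη0.le
      rw [h8]
      have h16 : (1 - η - 1 / N) * d = d - η * d - 1 / (N : ℝ) * d := by ring
      rw [h16] at h10
      have h17 : -(1 + 2 * η) * (m : ℝ) = -(m : ℝ) - 2 * (η * m) := by ring
      have h18 : 3 * η * (m : ℝ) = 3 * (η * m) := by ring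
      have h19 : η * (2 * (m : ℝ)) = 2 * (η * m) := by ring
      rw [h17]
      rw [h18] at hη
      rw [h19] at h12
      linarith
    have h5 : (1 - q) ^ (p / 2 * (((N - 1) * (2 * m - W) : ℕ) : ℝ) + -(1 + 2 * η) * m) ≤
        (1 - q) ^ (-((W : ℝ) / 2 + ε)) := Real.rpow_le_rpow_of_exponent_ge ht ht1 h4
    rw [h3]
    have h6 : C ^ m * (1 - q) ^ (p / 2 * (((N - 1) * (2 * m - W) : ℕ) : ℝ) + -(1 + 2 * η) * m) ≤
        C ^ m * (1 - q) ^ (-((W : ℝ) / 2 + ε)) := mul_le_mul_of_nonneg_left h5 (by positivity)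
    have h7 : 0 ≤ t₀⁻¹ ^ m * (1 - q) ^ (-((W : ℝ) / 2 + ε)) := by positivity
    nlinarith
  · have h2 := gt_tsum_le adj E b hb hadj h0 hq2
    refine h2.trans ?_
    have h3 : (1 - q)⁻¹ ^ m ≤ t₀⁻¹ ^ m :=
      pow_le_pow_left₀ (by positivity) (inv_anti₀ ht₀0 hlarge) _
    have h4 : t₀⁻¹ ^ m * 1 ≤ t₀⁻¹ ^ m * (1 - q) ^ (-((W : ℝ) / 2 + ε)) :=
      mul_le_mul_of_nonneg_left hX (by positivity)
    have h5 : 0 ≤ (1 + C ^ m) * (1 - q) ^ (-((W : ℝ) / 2 + ε)) := by positivity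
    rw [← hm]
    nlinarith

end

end Pool.Agent.H93.KW
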